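import Mathlib
import Pool.Agent.Helper92.Theta.Lin

/-!
# Relations between inner products of unit vectors
-/

open scoped InnerProductSpace

namespace Pool.Agent.Helper95.ThetaGap

open Pool.Agent.Helper92.Theta

/-- names of three fixed orthonormal vectors -/
def en (c : ℕ) : Nm := (10, c, 0)

/-- The constraints between the fixed vectors. -/
def eC : List Cst := [(en 0, en 1, 2), (en 0, en 2, 2), (en 1, en 2, 2)]

/-- The vector is orthogonal to the fixed vectors. -/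
def oe (p : Nm) : List Cst := [(p, en 0, 2), (p, en 1, 2), (p, en 2, 2)]

/-- The constraints for `p'·q' = 1 + p·q`. -/
def relC (S T p' p q' q : Nm) : List Cst :=
  oe p' ++ oe p ++ oe q' ++ oe q ++ [(p', p, 2), (q', q, 2), (p', q, 2), (q', p, 2),
    (S, p', 3), (S, p, 1), (S, en 0, 3), (S, en 1, 3),
    (T, q', 3), (T, q, 3), (T, en 0, 1), (T, en 2, 3), (S, T, 2)]

/-- The constraints for `p'·q' = p·q`. -/
def cpyC (S T p' p q' q : Nm) : List Cst :=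
  oe p' ++ oe p ++ oe q' ++ oe q ++ [(p', p, 2), (q', q, 2), (p', q, 2), (q', p, 2),
    (S, p', 3), (S, p, 1), (S, en 0, 3), (S, en 1, 3),
    (T, q', 3), (T, q, 3), (T, en 0, 3), (T, en 1, 1), (S, T, 2)]

/-- The constraints hold. -/
def Holds {H : Type} [NormedAddCommGroup H] [InnerProductSpace ℝ H] (u : Nm → H)
    (C : List Cst) : Prop := ∀ c ∈ C, ⟪u c.1, u c.2.1⟫_ℝ = (c.2.2 : ℝ) / 2 - 1

section

variable {H : Type} [NormedAddCommGroup H] [InnerProductSpace ℝ H] {u : Nm → H}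

lemma Holds.append {C D : List Cst} : Holds u (C ++ D) ↔ Holds u C ∧ Holds u D := by
  unfold Holds
  rw [List.forall_mem_append]

lemma Holds.flatMap {l : List ℕ} {f : ℕ → List Cst} :
    Holds u (l.flatMap f) ↔ ∀ i ∈ l, Holds u (f i) := by
  unfold Holds
  constructor
  · intro h i hi c hc
    exact h c (List.mem_flatMap.2 ⟨i, hi, hc⟩)
  · intro h c hc
    obtain ⟨i, hi, hc⟩ := List.mem_flatMap.1 hc
    exact h i hi c hc

lemma holds_oe {p : Nm} : Holds u (oe p) ↔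
    ⟪u p, u (en 0)⟫_ℝ = 0 ∧ ⟪u p, u (en 1)⟫_ℝ = 0 ∧ ⟪u p, u (en 2)⟫_ℝ = 0 := by
  unfold Holds oe
  simp only [List.forall_mem_cons, List.not_mem_nil, false_imp_iff, implies_true, and_true]
  norm_num

lemma holds_eC : Holds u eC ↔ ⟪u (en 0), u (en 1)⟫_ℝ = 0 ∧ ⟪u (en 0), u (en 2)⟫_ℝ = 0 ∧
    ⟪u (en 1), u (en 2)⟫_ℝ = 0 := by
  unfold Holds eC
  simp only [List.forall_mem_cons, List.not_mem_nil, false_imp_iff, implies_true, and_true]
  norm_num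

theorem rel_sound (hu : ∀ p, ⟪u p, u p⟫_ℝ = 1) (he : Holds u eC) {S T p' p q' q : Nm}
    (h : Holds u (relC S T p' p q' q)) : ⟪u p', u q'⟫_ℝ = 1 + ⟪u p, u q⟫_ℝ := by
  unfold relC at h
  rw [Holds.append, Holds.append, Holds.append, Holds.append, holds_oe, holds_oe, holds_oe,
    holds_oe] at h
  obtain ⟨⟨⟨⟨⟨a1, a2, a3⟩, b1, b2, b3⟩, c1, c2, c3⟩, d1, d2, d3⟩, h⟩ := h
  rw [holds_eC] at he
  obtain ⟨e1, e2, e3⟩ := he
  unfold Holds at h
  simp only [List.forall_mem_cons, List.not_mem_nil, false_imp_iff, implies_true, and_true] at h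
  obtain ⟨f1, f2, f3, f4, g1, g2, g3, g4, k1, k2, k3, k4, l⟩ := h
  norm_num at f1 f2 f3 f4 l
  have hS := lin4 (x := u S) (a := u p') (b := u p) (c := u (en 0)) (d := u (en 1)) (s := 1)
    (t := -1) (r := 1) (q := 1) (by norm_num) (by norm_num) (by norm_num) (by norm_num) (hu _)
    (hu _) (hu _) (hu _) (hu _) f1 a1 a2 b1 b2 e1 (by rw [g1]; norm_num) (by rw [g2]; norm_num)
    (by rw [g3]; norm_num) (by rw [g4]; norm_num)
  have hT := lin4 (x := u T) (a := u q') (b := u q) (c := u (en 0)) (d := u (en 2)) (s := 1)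
    (t := 1) (r := -1) (q := 1) (by norm_num) (by norm_num) (by norm_num) (by norm_num) (hu _)
    (hu _) (hu _) (hu _) (hu _) f2 c1 c3 d1 d3 e2 (by rw [k1]; norm_num) (by rw [k2]; norm_num)
    (by rw [k3]; norm_num) (by rw [k4]; norm_num)
  have e0q' : ⟪u (en 0), u q'⟫_ℝ = 0 := by rw [real_inner_comm]; exact c1
  have e0q : ⟪u (en 0), u q⟫_ℝ = 0 := by rw [real_inner_comm]; exact d1
  have e1q' : ⟪u (en 1), u q'⟫_ℝ = 0 := by rw [real_inner_comm]; exact c2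
  have e1q : ⟪u (en 1), u q⟫_ℝ = 0 := by rw [real_inner_comm]; exact d2
  have e10 : ⟪u (en 1), u (en 0)⟫_ℝ = 0 := by rw [real_inner_comm]; exact e1
  have pq' : ⟪u p, u q'⟫_ℝ = 0 := by rw [real_inner_comm]; exact f4
  rw [hS, hT] at l
  simp only [inner_smul_left, inner_smul_right, inner_add_left, inner_add_right, a1, a3, b1,
    b3, f3, pq', e0q', e0q, e1q', e1q, e10, e2, e3, hu, RCLike.conj_to_real] at l
  linarith

theorem cpy_sound (hu : ∀ p, ⟪u p, u p⟫_ℝ = 1) (he : Holds u eC) {S T p' p q' q : Nm}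
    (h : Holds u (cpyC S T p' p q' q)) : ⟪u p', u q'⟫_ℝ = ⟪u p, u q⟫_ℝ := by
  unfold cpyC at h
  rw [Holds.append, Holds.append, Holds.append, Holds.append, holds_oe, holds_oe, holds_oe,
    holds_oe] at h
  obtain ⟨⟨⟨⟨⟨a1, a2, a3⟩, b1, b2, b3⟩, c1, c2, c3⟩, d1, d2, d3⟩, h⟩ := h
  rw [holds_eC] at he
  obtain ⟨e1, e2, e3⟩ := he
  unfold Holds at h
  simp only [List.forall_mem_cons, List.not_mem_nil, false_imp_iff, implies_true, and_true] at h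
  obtain ⟨f1, f2, f3, f4, g1, g2, g3, g4, k1, k2, k3, k4, l⟩ := h
  norm_num at f1 f2 f3 f4 l
  have hS := lin4 (x := u S) (a := u p') (b := u p) (c := u (en 0)) (d := u (en 1)) (s := 1)
    (t := -1) (r := 1) (q := 1) (by norm_num) (by norm_num) (by norm_num) (by norm_num) (hu _)
    (hu _) (hu _) (hu _) (hu _) f1 a1 a2 b1 b2 e1 (by rw [g1]; norm_num) (by rw [g2]; norm_num)
    (by rw [g3]; norm_num) (by rw [g4]; norm_num)
  have hT := lin4 (x := u T) (a := u q') (b := u q) (c := u (en 0)) (d := u (en 1)) (s := 1)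
    (t := 1) (r := 1) (q := -1) (by norm_num) (by norm_num) (by norm_num) (by norm_num) (hu _)
    (hu _) (hu _) (hu _) (hu _) f2 c1 c2 d1 d2 e1 (by rw [k1]; norm_num) (by rw [k2]; norm_num)
    (by rw [k3]; norm_num) (by rw [k4]; norm_num)
  have e0q' : ⟪u (en 0), u q'⟫_ℝ = 0 := by rw [real_inner_comm]; exact c1
  have e0q : ⟪u (en 0), u q⟫_ℝ = 0 := by rw [real_inner_comm]; exact d1
  have e1q' : ⟪u (en 1), u q'⟫_ℝ = 0 := by rw [real_inner_comm]; exact c2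
  have e1q : ⟪u (en 1), u q⟫_ℝ = 0 := by rw [real_inner_comm]; exact d2
  have e10 : ⟪u (en 1), u (en 0)⟫_ℝ = 0 := by rw [real_inner_comm]; exact e1
  have pq' : ⟪u p, u q'⟫_ℝ = 0 := by rw [real_inner_comm]; exact f4
  rw [hS, hT] at l
  simp only [inner_smul_left, inner_smul_right, inner_add_left, inner_add_right, a1, a2, b1,
    b2, f3, pq', e0q', e0q, e1q', e1q, e10, e1, hu, RCLike.conj_to_real] at l
  linarith

/-- Data for the completeness of the relations. -/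
structure Perp (u : Nm → H) (p' p q' q : Nm) : Prop where
  h1 : ⟪u p', u p'⟫_ℝ = 1 ∧ Holds u (oe p')
  h2 : ⟪u p, u p⟫_ℝ = 1 ∧ Holds u (oe p)
  h3 : ⟪u q', u q'⟫_ℝ = 1 ∧ Holds u (oe q')
  h4 : ⟪u q, u q⟫_ℝ = 1 ∧ Holds u (oe q)
  pp : ⟪u p', u p⟫_ℝ = 0
  qq : ⟪u q', u q⟫_ℝ = 0
  pq : ⟪u p', u q⟫_ℝ = 0
  qp : ⟪u q', u p⟫_ℝ = 0

theorem rel_complete (he : Holds u eC) (he' : ∀ c, ⟪u (en c), u (en c)⟫_ℝ = 1)
    {S T p' p q' q : Nm} (hp : Perp u p' p q' q)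
    (hS : u S = (1 / 2 : ℝ) • (u p' - u p + u (en 0) + u (en 1)))
    (hT : u T = (1 / 2 : ℝ) • (u q' + u q - u (en 0) + u (en 2)))
    (hr : ⟪u p', u q'⟫_ℝ = 1 + ⟪u p, u q⟫_ℝ) : Holds u (relC S T p' p q' q) := by
  obtain ⟨⟨p'1, hp'⟩, ⟨p1, hp0⟩, ⟨q'1, hq'⟩, ⟨q1, hq0⟩, pp, qq, pq, qp⟩ := hp
  unfold relC
  rw [Holds.append, Holds.append, Holds.append, Holds.append]
  refine ⟨⟨⟨⟨hp', hp0⟩, hq'⟩, hq0⟩, ?_⟩
  rw [holds_oe] at hp' hp0 hq' hq0
  rw [holds_eC] at he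
  obtain ⟨a1, a2, a3⟩ := hp'
  obtain ⟨b1, b2, b3⟩ := hp0
  obtain ⟨c1, c2, c3⟩ := hq'
  obtain ⟨d1, d2, d3⟩ := hq0
  obtain ⟨e1, e2, e3⟩ := he
  have a1' : ⟪u (en 0), u p'⟫_ℝ = 0 := by rw [real_inner_comm]; exact a1
  have a2' : ⟪u (en 1), u p'⟫_ℝ = 0 := by rw [real_inner_comm]; exact a2
  have b1' : ⟪u (en 0), u p⟫_ℝ = 0 := by rw [real_inner_comm]; exact b1
  have b2' : ⟪u (en 1), u p⟫_ℝ = 0 := by rw [real_inner_comm]; exact b2
  have c1' : ⟪u (en 0), u q'⟫_ℝ = 0 := by rw [real_inner_comm]; exact c1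
  have c2' : ⟪u (en 1), u q'⟫_ℝ = 0 := by rw [real_inner_comm]; exact c2
  have c3' : ⟪u (en 2), u q'⟫_ℝ = 0 := by rw [real_inner_comm]; exact c3
  have d1' : ⟪u (en 0), u q⟫_ℝ = 0 := by rw [real_inner_comm]; exact d1
  have d2' : ⟪u (en 1), u q⟫_ℝ = 0 := by rw [real_inner_comm]; exact d2
  have d3' : ⟪u (en 2), u q⟫_ℝ = 0 := by rw [real_inner_comm]; exact d3
  have e1' : ⟪u (en 1), u (en 0)⟫_ℝ = 0 := by rw [real_inner_comm]; exact e1
  have e2' : ⟪u (en 2), u (en 0)⟫_ℝ = 0 := by rw [real_inner_comm]; exact e2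
  have pp' : ⟪u p, u p'⟫_ℝ = 0 := by rw [real_inner_comm]; exact pp
  have qq' : ⟪u q, u q'⟫_ℝ = 0 := by rw [real_inner_comm]; exact qq
  have qp' : ⟪u p, u q'⟫_ℝ = 0 := by rw [real_inner_comm]; exact qp
  unfold Holds
  simp only [List.forall_mem_cons, List.not_mem_nil, false_imp_iff, implies_true, and_true]
  refine ⟨?_, ?_, ?_, ?_, ?_, ?_, ?_, ?_, ?_, ?_, ?_, ?_, ?_⟩
  · rw [pp]; norm_num
  · rw [qq]; norm_num
  · rw [pq]; norm_num
  · rw [qp]; norm_num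
  all_goals
    simp only [hS, hT, inner_smul_left, inner_smul_right, inner_add_left, inner_add_right,
      inner_sub_left, inner_sub_right, a1, a2, a3, b1, b2, b3, c1, c2, c3, d1, d2, d3, e1, e2, e3,
      a1', a2', b1', b2', c1', c2', c3', d1', d2', d3', e1', e2', pp, qq, pq, pp',
      qq', qp', p'1, p1, q'1, q1, he', hr, RCLike.conj_to_real]
    push_cast
    ring

theorem cpy_complete (he : Holds u eC) (he' : ∀ c, ⟪u (en c), u (en c)⟫_ℝ = 1)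
    {S T p' p q' q : Nm} (hp : Perp u p' p q' q)
    (hS : u S = (1 / 2 : ℝ) • (u p' - u p + u (en 0) + u (en 1)))
    (hT : u T = (1 / 2 : ℝ) • (u q' + u q + u (en 0) - u (en 1)))
    (hr : ⟪u p', u q'⟫_ℝ = ⟪u p, u q⟫_ℝ) : Holds u (cpyC S T p' p q' q) := by
  obtain ⟨⟨p'1, hp'⟩, ⟨p1, hp0⟩, ⟨q'1, hq'⟩, ⟨q1, hq0⟩, pp, qq, pq, qp⟩ := hp
  unfold cpyC
  rw [Holds.append, Holds.append, Holds.append, Holds.append]
  refine ⟨⟨⟨⟨hp', hp0⟩, hq'⟩, hq0⟩, ?_⟩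
  rw [holds_oe] at hp' hp0 hq' hq0
  rw [holds_eC] at he
  obtain ⟨a1, a2, a3⟩ := hp'
  obtain ⟨b1, b2, b3⟩ := hp0
  obtain ⟨c1, c2, c3⟩ := hq'
  obtain ⟨d1, d2, d3⟩ := hq0
  obtain ⟨e1, e2, e3⟩ := he
  have a1' : ⟪u (en 0), u p'⟫_ℝ = 0 := by rw [real_inner_comm]; exact a1
  have a2' : ⟪u (en 1), u p'⟫_ℝ = 0 := by rw [real_inner_comm]; exact a2
  have b1' : ⟪u (en 0), u p⟫_ℝ = 0 := by rw [real_inner_comm]; exact b1
  have b2' : ⟪u (en 1), u p⟫_ℝ = 0 := by rw [real_inner_comm]; exact b2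
  have c1' : ⟪u (en 0), u q'⟫_ℝ = 0 := by rw [real_inner_comm]; exact c1
  have c2' : ⟪u (en 1), u q'⟫_ℝ = 0 := by rw [real_inner_comm]; exact c2
  have d1' : ⟪u (en 0), u q⟫_ℝ = 0 := by rw [real_inner_comm]; exact d1
  have d2' : ⟪u (en 1), u q⟫_ℝ = 0 := by rw [real_inner_comm]; exact d2
  have e1' : ⟪u (en 1), u (en 0)⟫_ℝ = 0 := by rw [real_inner_comm]; exact e1
  have pp' : ⟪u p, u p'⟫_ℝ = 0 := by rw [real_inner_comm]; exact pp
  have qq' : ⟪u q, u q'⟫_ℝ = 0 := by rw [real_inner_comm]; exact qq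
  have qp' : ⟪u p, u q'⟫_ℝ = 0 := by rw [real_inner_comm]; exact qp
  unfold Holds
  simp only [List.forall_mem_cons, List.not_mem_nil, false_imp_iff, implies_true, and_true]
  refine ⟨?_, ?_, ?_, ?_, ?_, ?_, ?_, ?_, ?_, ?_, ?_, ?_, ?_⟩
  · rw [pp]; norm_num
  · rw [qq]; norm_num
  · rw [pq]; norm_num
  · rw [qp]; norm_num
  all_goals
    simp only [hS, hT, inner_smul_left, inner_smul_right, inner_add_left, inner_add_right,
      inner_sub_left, inner_sub_right, a1, a2, b1, b2, c1, c2, d1, d2, e1,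
      a1', a2', b1', b2', c1', c2', d1', d2', e1', pp, qq, pq, pp',
      qq', qp', p'1, p1, q'1, q1, he', hr, RCLike.conj_to_real]
    push_cast
    ring

/-- Half of the sum of four orthonormal vectors is a unit vector. -/
lemma unit_half {s t r q : ℝ} (hs : s * s = 1) (ht : t * t = 1) (hr : r * r = 1) (hq : q * q = 1)
    {a b c d : H} (ha : ⟪a, a⟫_ℝ = 1) (hb : ⟪b, b⟫_ℝ = 1) (hc : ⟪c, c⟫_ℝ = 1)
    (hd : ⟪d, d⟫_ℝ = 1) (hab : ⟪a, b⟫_ℝ = 0) (hac : ⟪a, c⟫_ℝ = 0) (had : ⟪a, d⟫_ℝ = 0)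
    (hbc : ⟪b, c⟫_ℝ = 0) (hbd : ⟪b, d⟫_ℝ = 0) (hcd : ⟪c, d⟫_ℝ = 0) :
    ⟪(1 / 2 : ℝ) • (s • a + t • b + r • c + q • d),
      (1 / 2 : ℝ) • (s • a + t • b + r • c + q • d)⟫_ℝ = 1 := by
  have hba : ⟪b, a⟫_ℝ = 0 := by rw [real_inner_comm]; exact hab
  have hca : ⟪c, a⟫_ℝ = 0 := by rw [real_inner_comm]; exact hac
  have hda : ⟪d, a⟫_ℝ = 0 := by rw [real_inner_comm]; exact had
  have hcb : ⟪c, b⟫_ℝ = 0 := by rw [real_inner_comm]; exact hbc
  have hdb : ⟪d, b⟫_ℝ = 0 := by rw [real_inner_comm]; exact hbd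
  have hdc : ⟪d, c⟫_ℝ = 0 := by rw [real_inner_comm]; exact hcd
  simp only [inner_add_left, inner_add_right, inner_smul_left,
      inner_smul_right, ha, hb, hc, hd, hab, hac, had, hbc, hbd, hcd, hba, hca, hda, hcb, hdb,
      hdc, RCLike.conj_to_real]
  linear_combination (1 / 4) * hs + (1 / 4) * ht + (1 / 4) * hr + (1 / 4) * hq

end

end Pool.Agent.Helper95.ThetaGap
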