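import Mathlib
import Pool.Agent.Helper95.ThetaGap.Rel

/-!
# Repeated squaring by relations between inner products: soundness
-/

open scoped InnerProductSpace

namespace Pool.Agent.Helper95.ThetaGap

open Pool.Agent.Helper92.Theta

/-- names -/
def bn (c : ℕ) : Nm := (11, c, 0)
/-- names -/
def fn (i : ℕ) : Nm := (12, i, 0)
/-- names -/
def rn (i : ℕ) : Nm := (13, i, 0)
/-- names -/
def vn (i : ℕ) : Nm := (14, i, 0)
/-- names -/
def Sf (i : ℕ) : Nm := (15, i, 0)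
/-- names -/
def Sr (i : ℕ) : Nm := (16, i, 0)
/-- names -/
def Tv (i : ℕ) : Nm := (17, i, 0)

/-- The constraints of the first block. -/
def gBase : List Cst :=
  eC ++ oe (rn 0) ++ oe (fn 0) ++
    [(bn 0, bn 1, 2), (bn 0, bn 2, 2), (bn 0, bn 3, 2), (bn 0, bn 4, 2), (bn 1, bn 2, 2),
      (bn 1, bn 3, 2), (bn 1, bn 4, 2), (bn 2, bn 3, 2), (bn 2, bn 4, 2), (bn 3, bn 4, 2),
      (rn 0, bn 0, 3), (rn 0, bn 1, 3), (rn 0, bn 2, 3), (rn 0, bn 3, 3),
      (fn 0, bn 0, 1), (fn 0, bn 1, 1), (fn 0, bn 2, 1), (fn 0, bn 4, 3)]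

/-- The constraints from one block to the next. -/
def gStep (i : ℕ) : List Cst :=
  relC (Sf i) (Tv i) (fn (i + 1)) (rn i) (vn i) (fn i) ++
    relC (Sr i) (Tv i) (rn (i + 1)) (rn i) (vn i) (fn i)

/-- The first chain. -/
def gChain (M : ℕ) : List Cst := gBase ++ (List.range M).flatMap gStep

/-- names -/
def Rn (j : ℕ) : Nm := (20, j, 0)
/-- names -/
def Fn (j : ℕ) : Nm := (21, j, 0)
/-- names -/
def Gn (j : ℕ) : Nm := (22, j, 0)
/-- names -/
def Kn (j : ℕ) : Nm := (23, j, 0)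
/-- names -/
def Un (j : ℕ) : Nm := (24, j, 0)
/-- names -/
def Wn (j : ℕ) : Nm := (25, j, 0)
/-- names -/
def Pg (j : ℕ) : Nm := (26, j, 0)
/-- names -/
def Pk (j : ℕ) : Nm := (27, j, 0)
/-- names -/
def Qf (j : ℕ) : Nm := (28, j, 0)
/-- names -/
def Qr (j : ℕ) : Nm := (29, j, 0)

/-- previous names -/
def pR (M : ℕ) : ℕ → Nm
  | 0 => rn M
  | j + 1 => Rn j
/-- previous names -/
def pF (M : ℕ) : ℕ → Nm
  | 0 => fn M
  | j + 1 => Fn j
/-- previous names -/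
def pG (M : ℕ) : ℕ → Nm
  | 0 => rn M
  | j + 1 => Gn j
/-- previous names -/
def pK (M : ℕ) : ℕ → Nm
  | 0 => fn M
  | j + 1 => Kn j

/-- The constraints of a block of the second chain. -/
def hStep (M j : ℕ) : List Cst :=
  cpyC (Un j) (Wn j) (Rn j) (pR M j) (Fn j) (pF M j) ++
  relC (Pg j) (Qf j) (Gn j) (pG M j) (Fn j) (pK M j) ++
  relC (Pg j) (Qr j) (Gn j) (pG M j) (Rn j) (pK M j) ++
  relC (Pk j) (Qf j) (Kn j) (pG M j) (Fn j) (pK M j) ++
  relC (Pk j) (Qr j) (Kn j) (pG M j) (Rn j) (pK M j)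

/-- The two chains. -/
def hChain (M N : ℕ) : List Cst := gChain M ++ (List.range (N + 1)).flatMap (hStep M)

section

variable {H : Type} [NormedAddCommGroup H] [InnerProductSpace ℝ H] {u : Nm → H}

lemma holds_eC_of_chain {M : ℕ} (h : Holds u (gChain M)) : Holds u eC := by
  unfold gChain gBase at h
  rw [Holds.append, Holds.append, Holds.append, Holds.append] at h
  exact h.1.1.1.1

lemma holds_step {M : ℕ} (h : Holds u (gChain M)) {i : ℕ} (hi : i < M) :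
    Holds u (relC (Sf i) (Tv i) (fn (i + 1)) (rn i) (vn i) (fn i)) ∧
    Holds u (relC (Sr i) (Tv i) (rn (i + 1)) (rn i) (vn i) (fn i)) := by
  unfold gChain at h
  rw [Holds.append, Holds.flatMap] at h
  have := h.2 i (List.mem_range.2 hi)
  unfold gStep at this
  rwa [Holds.append] at this

theorem base_sound (hu : ∀ p, ⟪u p, u p⟫_ℝ = 1) {M : ℕ} (h : Holds u (gChain M)) :
    1 + ⟪u (rn 0), u (fn 0)⟫_ℝ = 1 / 4 := by
  unfold gChain gBase at h
  rw [Holds.append, Holds.append] at h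
  have h := h.1.2
  unfold Holds at h
  simp only [List.forall_mem_cons, List.not_mem_nil, false_imp_iff, implies_true, and_true] at h
  obtain ⟨f1, f2, f3, f4, f5, f6, f7, f8, f9, f10, g1, g2, g3, g4, k1, k2, k3, k4⟩ := h
  norm_num at f1 f2 f3 f4 f5 f6 f7 f8 f9 f10
  have hr := lin4 (x := u (rn 0)) (a := u (bn 0)) (b := u (bn 1)) (c := u (bn 2)) (d := u (bn 3))
    (s := 1) (t := 1) (r := 1) (q := 1) (by norm_num) (by norm_num) (by norm_num) (by norm_num)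
    (hu _) (hu _) (hu _) (hu _) (hu _) f1 f2 f3 f5 f6 f8 (by rw [g1]; norm_num)
    (by rw [g2]; norm_num) (by rw [g3]; norm_num) (by rw [g4]; norm_num)
  have hf := lin4 (x := u (fn 0)) (a := u (bn 0)) (b := u (bn 1)) (c := u (bn 2)) (d := u (bn 4))
    (s := -1) (t := -1) (r := -1) (q := 1) (by norm_num) (by norm_num) (by norm_num)
    (by norm_num)
    (hu _) (hu _) (hu _) (hu _) (hu _) f1 f2 f4 f5 f7 f9 (by rw [k1]; norm_num)
    (by rw [k2]; norm_num) (by rw [k3]; norm_num) (by rw [k4]; norm_num)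
  have f1' : ⟪u (bn 1), u (bn 0)⟫_ℝ = 0 := by rw [real_inner_comm]; exact f1
  have f2' : ⟪u (bn 2), u (bn 0)⟫_ℝ = 0 := by rw [real_inner_comm]; exact f2
  have f3' : ⟪u (bn 3), u (bn 0)⟫_ℝ = 0 := by rw [real_inner_comm]; exact f3
  have f5' : ⟪u (bn 2), u (bn 1)⟫_ℝ = 0 := by rw [real_inner_comm]; exact f5
  have f6' : ⟪u (bn 3), u (bn 1)⟫_ℝ = 0 := by rw [real_inner_comm]; exact f6
  have f8' : ⟪u (bn 3), u (bn 2)⟫_ℝ = 0 := by rw [real_inner_comm]; exact f8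
  rw [hr, hf]
  simp only [inner_smul_left, inner_smul_right, inner_add_left, inner_add_right, f1, f2, f4,
    f5, f7, f9, f10, f1', f2', f3', f5', f6', f8', hu, RCLike.conj_to_real]
  norm_num

/-- The square step. -/
theorem sq_step {r f v : H} (hr : ⟪r, r⟫_ℝ = 1) (hf : ⟪f, f⟫_ℝ = 1) (hv : ⟪v, v⟫_ℝ = 1)
    {x : ℝ} (h1 : ⟪f, v⟫_ℝ = x) (h2 : ⟪r, v⟫_ℝ = x) : 2 * x ^ 2 ≤ 1 + ⟪r, f⟫_ℝ := by
  have h := real_inner_mul_inner_self_le (r + f) v
  have h3 : ⟪r + f, v⟫_ℝ = 2 * x := by rw [inner_add_left, h1, h2]; ring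
  have h4 : ⟪r + f, r + f⟫_ℝ = 2 + 2 * ⟪r, f⟫_ℝ := by
    rw [inner_add_left, inner_add_right, inner_add_right, hr, hf, real_inner_comm r f]; ring
  rw [h3, h4, hv] at h
  nlinarith

/-- The product step. -/
theorem prod_step {r f g k : H} (hr : ⟪r, r⟫_ℝ = 1) (hf : ⟪f, f⟫_ℝ = 1) (hg : ⟪g, g⟫_ℝ = 1)
    (hk : ⟪k, k⟫_ℝ = 1) {x s : ℝ} (h1 : ⟪g, f⟫_ℝ = x) (h2 : ⟪g, r⟫_ℝ = x) (h3 : ⟪k, f⟫_ℝ = x)
    (h4 : ⟪k, r⟫_ℝ = x) (hs : 1 + ⟪r, f⟫_ℝ = s) : 4 * x ^ 2 ≤ s * (1 + ⟪g, k⟫_ℝ) := by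
  have h := real_inner_mul_inner_self_le (g + k) (r + f)
  have h5 : ⟪g + k, r + f⟫_ℝ = 4 * x := by
    rw [inner_add_left, inner_add_right, inner_add_right, h1, h2, h3, h4]; ring
  have h6 : ⟪r + f, r + f⟫_ℝ = 2 * s := by
    rw [inner_add_left, inner_add_right, inner_add_right, hr, hf, real_inner_comm r f, ← hs]; ring
  have h7 : ⟪g + k, g + k⟫_ℝ = 2 * (1 + ⟪g, k⟫_ℝ) := by
    rw [inner_add_left, inner_add_right, inner_add_right, hg, hk, real_inner_comm g k]; ring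
  rw [h5, h6, h7] at h
  nlinarith

theorem chain_pos (hu : ∀ p, ⟪u p, u p⟫_ℝ = 1) {M : ℕ} (h : Holds u (gChain M)) :
    ∀ i ≤ M, 0 < 1 + ⟪u (rn i), u (fn i)⟫_ℝ := by
  intro i
  induction i with
  | zero =>
    intro _
    rw [base_sound hu h]; norm_num
  | succ i ih =>
    intro hi
    have h0 := ih (by omega)
    obtain ⟨h1, h2⟩ := holds_step h (show i < M by omega)
    have e1 := rel_sound hu (holds_eC_of_chain h) h1
    have e2 := rel_sound hu (holds_eC_of_chain h) h2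
    have := sq_step (hu (rn (i + 1))) (hu (fn (i + 1))) (hu (vn i)) e1 e2
    have h3 : 0 < (1 + ⟪u (rn i), u (fn i)⟫_ℝ) ^ 2 := by positivity
    linarith

/-- The values of the second chain. -/
theorem chain_small (hu : ∀ p, ⟪u p, u p⟫_ℝ = 1) {M N : ℕ} (h : Holds u (hChain M N)) :
    (1 + ⟪u (rn M), u (fn M)⟫_ℝ) * 4 ^ 2 ^ (N + 1) ≤ 8 := by
  unfold hChain at h
  rw [Holds.append, Holds.flatMap] at h
  obtain ⟨hg, hh⟩ := h
  have he := holds_eC_of_chain hg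
  set s := 1 + ⟪u (rn M), u (fn M)⟫_ℝ with hs
  have hs0 : 0 < s := chain_pos hu hg M le_rfl
  have hblk : ∀ j ≤ N, Holds u (hStep M j) := fun j hj => hh j (List.mem_range.2 (by omega))
  have hR : ∀ j ≤ N + 1, 1 + ⟪u (pR M j), u (pF M j)⟫_ℝ = s := by
    intro j
    induction j with
    | zero => intro _; rfl
    | succ j ih =>
      intro hj
      have h1 := hblk j (by omega)
      unfold hStep at h1
      rw [Holds.append, Holds.append, Holds.append, Holds.append] at h1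
      have := cpy_sound hu he h1.1.1.1.1
      change 1 + ⟪u (Rn j), u (Fn j)⟫_ℝ = s
      rw [this]
      exact ih (by omega)
  have hT : ∀ j ≤ N + 1, s * 4 ^ 2 ^ j ≤ 4 * (1 + ⟪u (pG M j), u (pK M j)⟫_ℝ) := by
    intro j
    induction j with
    | zero =>
      intro _
      change s * 4 ^ 2 ^ 0 ≤ 4 * s
      rw [pow_zero, pow_one]; linarith
    | succ j ih =>
      intro hj
      have h1 := hblk j (by omega)
      unfold hStep at h1
      rw [Holds.append, Holds.append, Holds.append, Holds.append] at h1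
      obtain ⟨⟨⟨⟨-, a1⟩, a2⟩, a3⟩, a4⟩ := h1
      have b1 := rel_sound hu he a1
      have b2 := rel_sound hu he a2
      have b3 := rel_sound hu he a3
      have b4 := rel_sound hu he a4
      have h2 := prod_step (hu (Rn j)) (hu (Fn j)) (hu (Gn j)) (hu (Kn j)) b1 b2 b3 b4
        (hR (j + 1) hj)
      have h3 := ih (by omega)
      set x := 1 + ⟪u (pG M j), u (pK M j)⟫_ℝ with hx
      change s * 4 ^ 2 ^ (j + 1) ≤ 4 * (1 + ⟪u (Gn j), u (Kn j)⟫_ℝ)
      set t := 1 + ⟪u (Gn j), u (Kn j)⟫_ℝ with ht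
      have h4 : (s * 4 ^ 2 ^ j) ^ 2 ≤ (4 * x) ^ 2 := by
        apply pow_le_pow_left₀ (by positivity) h3
      have h5 : (s * 4 ^ 2 ^ j) ^ 2 = s * (s * 4 ^ 2 ^ (j + 1)) := by
        rw [pow_succ 2 j, pow_mul]; ring
      have h6 : s * (s * 4 ^ 2 ^ (j + 1)) ≤ s * (4 * t) := by
        rw [← h5]; nlinarith
      exact le_of_mul_le_mul_left h6 hs0
  have h1 := hT (N + 1) le_rfl
  have h2 : ⟪u (pG M (N + 1)), u (pK M (N + 1))⟫_ℝ ≤ 1 := by
    have h := real_inner_mul_inner_self_le (u (pG M (N + 1))) (u (pK M (N + 1)))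
    rw [hu, hu] at h
    nlinarith
  linarith

end

end Pool.Agent.Helper95.ThetaGap
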