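import Mathlib
import Pool.Agent.Helper92.Theta.Gad

/-!
# Splitting vectors, with the Gram matrix
-/

open scoped InnerProductSpace

namespace Pool.Agent.Helper95.ThetaGap

open Pool.Agent.Helper92.Theta

/-- Splitting vectors of norm square `m / 8` into `m` orthogonal vectors of norm square `1 / 8`,
with all inner products. -/
theorem blowup2 {X Γ : Type} [DecidableEq X] [DecidableEq Γ] (grp : X → Γ) (F : Γ → Finset X)
    (hF' : ∀ γ x, x ∈ F γ → grp x = γ)
    {H₀ : Type} [NormedAddCommGroup H₀] [InnerProductSpace ℝ H₀] (y₀ : H₀) (G : Γ → H₀) :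
    ∃ (H : Type) (_ : NormedAddCommGroup H) (_ : InnerProductSpace ℝ H) (z₀ : H) (z : X → H),
      ⟪z₀, z₀⟫_ℝ = ⟪y₀, y₀⟫_ℝ ∧
      (∀ x, ⟪z₀, z x⟫_ℝ = 1 / ((F (grp x)).card : ℝ) * ⟪y₀, G (grp x)⟫_ℝ) ∧
      ∀ x x', x ∈ F (grp x) → x' ∈ F (grp x') →
        ⟪z x, z x'⟫_ℝ = 1 / ((F (grp x)).card : ℝ) * (1 / ((F (grp x')).card : ℝ)) *
          ⟪G (grp x), G (grp x')⟫_ℝ + 1 / 8 * ((if x = x' then 1 else 0) -
            (if grp x = grp x' then 1 / ((F (grp x)).card : ℝ) else 0)) := by
  classical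
  obtain ⟨H, _, _, e, b, he, hb, heb, hbe⟩ := exists_ext H₀ X
  set B : Γ → H := fun γ => ∑ x ∈ F γ, b x with hB
  set m : Γ → ℝ := fun γ => ((F γ).card : ℝ) with hm
  have hbB : ∀ x γ, ⟪b x, B γ⟫_ℝ = if x ∈ F γ then 1 else 0 := by
    intro x γ
    rw [hB, inner_sum]
    by_cases hx : x ∈ F γ
    · rw [if_pos hx, Finset.sum_eq_single x]
      · rw [hb, if_pos rfl]
      · intro j _ hj; rw [hb, if_neg (Ne.symm hj)]
      · intro h; exact absurd hx h
    · rw [if_neg hx]
      refine Finset.sum_eq_zero fun j hj => ?_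
      rw [hb, if_neg]
      rintro rfl
      exact hx hj
  have hBb : ∀ x γ, ⟪B γ, b x⟫_ℝ = if x ∈ F γ then 1 else 0 := by
    intro x γ
    rw [real_inner_comm, hbB]
  have hBB : ∀ γ, ⟪B γ, B γ⟫_ℝ = m γ := by
    intro γ
    conv_lhs => rw [hB]
    simp only
    rw [sum_inner]
    have : ∀ x ∈ F γ, ⟪b x, ∑ x ∈ F γ, b x⟫_ℝ = 1 := by
      intro x hx
      have := hbB x γ
      rw [if_pos hx] at this
      exact this
    rw [Finset.sum_congr rfl this]
    simp [hm]
  have hBB' : ∀ γ γ', γ ≠ γ' → ⟪B γ, B γ'⟫_ℝ = 0 := by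
    intro γ γ' hne
    conv_lhs => rw [hB]
    simp only
    rw [sum_inner]
    refine Finset.sum_eq_zero fun x hx => ?_
    have := hbB x γ'
    rw [if_neg] at this
    · exact this
    · intro hx'
      exact hne ((hF' γ x hx).symm.trans (hF' γ' x hx'))
  have heB : ∀ y γ, ⟪e y, B γ⟫_ℝ = 0 := by
    intro y γ
    rw [hB, inner_sum]
    exact Finset.sum_eq_zero fun x _ => heb y x
  have hBe : ∀ y γ, ⟪B γ, e y⟫_ℝ = 0 := by
    intro y γ
    rw [real_inner_comm, heB]
  set r : ℝ := Real.sqrt (1 / 8) with hr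
  have hr2 : r * r = 1 / 8 := Real.mul_self_sqrt (by norm_num)
  refine ⟨H, inferInstance, inferInstance, e y₀, fun x => (1 / m (grp x)) • e (G (grp x)) +
    r • (b x - (1 / m (grp x)) • B (grp x)), ?_, ?_, ?_⟩
  · rw [he]
  · intro x
    rw [inner_add_right, inner_smul_right, inner_smul_right, inner_sub_right, inner_smul_right,
      he, heb, heB]
    change 1 / m (grp x) * _ + _ = 1 / m (grp x) * _
    ring
  · intro x x' hx hx'
    have hmpos : ∀ x, x ∈ F (grp x) → m (grp x) ≠ 0 := by
      intro x hx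
      have : 0 < (F (grp x)).card := Finset.card_pos.2 ⟨x, hx⟩
      simp only [hm]
      exact_mod_cast this.ne'
    have hmx := hmpos x hx
    have hmx' := hmpos x' hx'
    by_cases hg : grp x = grp x'
    · have h1 : x ∈ F (grp x') := hg ▸ hx
      simp only [hg]
      rw [hg] at hmx
      have hcard : ((F (grp x')).card : ℝ) = m (grp x') := rfl
      simp only [inner_add_left, inner_add_right, inner_smul_left, inner_smul_right,
        inner_sub_left, inner_sub_right, he, heb, hbe, heB, hBe, hBB, hbB, hBb, hb,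
        if_pos hx', if_pos h1, RCLike.conj_to_real, hcard, if_true]
      by_cases hxx : x = x'
      · simp only [if_pos hxx]
        field_simp
        linear_combination (8 * m (grp x') * (m (grp x') - 1)) * hr2
      · simp only [if_neg hxx]
        field_simp
        linear_combination (- 8 * m (grp x')) * hr2
    · have h1 : x ∉ F (grp x') := fun h => hg (hF' _ _ h)
      have h2 : x' ∉ F (grp x) := fun h => hg (hF' _ _ h).symm
      have hne : x ≠ x' := fun h => hg (congrArg grp h)
      simp only [inner_add_left, inner_add_right, inner_smul_left, inner_smul_right,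
        inner_sub_left, inner_sub_right, he, heb, hbe, heB, hBe, hBB' _ _ hg, hbB, hBb, hb,
        if_neg h1, if_neg h2, if_neg hne, if_neg hg, RCLike.conj_to_real]
      have hc1 : ((F (grp x)).card : ℝ) = m (grp x) := rfl
      have hc2 : ((F (grp x')).card : ℝ) = m (grp x') := rfl
      rw [hc1, hc2]
      ring

end Pool.Agent.Helper95.ThetaGap
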