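import Mathlib
import Pool.Agent.Helper95.ThetaGap.Blow2

/-!
# From approximate unit vectors to a nearly feasible matrix
-/

open scoped InnerProductSpace

namespace Pool.Agent.Helper95.ThetaGap

open Pool.Agent.Helper92.Theta

/-- The rational numbers as a subfield of the reals. -/
noncomputable def QQ : Subfield ℝ := (algebraMap ℚ ℝ).fieldRange

lemma mem_QQ {x : ℝ} (h : x ∈ QQ) : ∃ q : ℚ, x = q := by
  obtain ⟨q, hq⟩ := h
  exact ⟨q, by rw [← hq]; rfl⟩

lemma ratCast_mem_QQ (q : ℚ) : (q : ℝ) ∈ QQ := ⟨q, rfl⟩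

lemma ofNat_mem_QQ (n : ℕ) : (n : ℝ) ∈ QQ := natCast_mem QQ n

theorem complete2 (C : List Cst) (hC : ∀ c ∈ C, c.2.2 ≤ 4) {H : Type} [NormedAddCommGroup H]
    [InnerProductSpace ℝ H] (u : Nm → H) (ut : Cst → H) (δ : ℝ)
    (hu : ∀ p, ⟪u p, u p⟫_ℝ = 1) (hut : ∀ c, ⟪ut c, ut c⟫_ℝ = 1)
    (h1 : ∀ c ∈ C, ⟪u c.1, ut c⟫_ℝ = (c.2.2 : ℝ) / 2 - 1)
    (h2 : ∀ c ∈ C, |⟪u c.1, u c.2.1⟫_ℝ - ((c.2.2 : ℝ) / 2 - 1)| ≤ δ)
    (h3 : ∀ c ∈ C, |⟪ut c, u c.2.1⟫_ℝ - 1| ≤ δ) (hδ : 0 ≤ δ) :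
    ∃ Y : Matrix (Option (Fin (gadget C).1)) (Option (Fin (gadget C).1)) ℝ, Y.PosSemidef ∧
      Y none none = 1 ∧ (∀ i, Y none (some i) = 1 / 8 ∧ Y (some i) (some i) = 1 / 8) ∧
      (∀ i j, (graphOf (gadget C).1 (gadget C).2).Adj i j → |Y (some i) (some j)| ≤ δ) ∧
      ((∀ p q, ⟪u p, u q⟫_ℝ ∈ QQ) → (∀ p c, ⟪u p, ut c⟫_ℝ ∈ QQ) →
        (∀ c c', ⟪ut c, ut c'⟫_ℝ ∈ QQ) → ∀ a b, Y a b ∈ QQ) := by
  classical
  obtain ⟨H₁, _, _, e, b, he, hb, heb, hbe⟩ := exists_ext H (Option Cst)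
  set w : Cst → ℝ := fun c => Real.sqrt ((c.2.2 : ℝ) * (4 - c.2.2) / 64) with hw
  have hw2 : ∀ c ∈ C, w c * w c = (c.2.2 : ℝ) * (4 - c.2.2) / 64 := by
    intro c hc
    have h1 : ((c.2.2 : ℕ) : ℝ) ≤ 4 := by exact_mod_cast hC c hc
    have h2 : (0 : ℝ) ≤ c.2.2 := Nat.cast_nonneg _
    refine Real.mul_self_sqrt ?_
    have := mul_nonneg h2 (sub_nonneg.2 h1)
    positivity
  set G : Grp → H₁ := fun γ => match γ with
    | .inl (p, true) => (1 / 2 : ℝ) • b none + (1 / 2 : ℝ) • e (u p)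
    | .inl (p, false) => (1 / 2 : ℝ) • b none + (-1 / 2 : ℝ) • e (u p)
    | .inr (c, true) => ((c.2.2 : ℝ) / 8) • b none + (-1 / 4 : ℝ) • (e (u c.1) + e (ut c)) +
        (w c) • b (some c)
    | .inr (c, false) => ((4 - c.2.2 : ℝ) / 8) • b none +
        (-1 / 4 : ℝ) • (e (u c.1) - e (ut c)) + (- w c) • b (some c) with hG
  have hbn : ∀ c : Cst, ⟪b none, b (some c)⟫_ℝ = 0 := fun c => by rw [hb]; simp
  have hbn' : ∀ c : Cst, ⟪b (some c), b none⟫_ℝ = 0 := fun c => by rw [hb]; simp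
  have hbb : ∀ x, ⟪b x, b x⟫_ℝ = 1 := fun x => by rw [hb]; simp
  have h1' : ∀ c ∈ C, ⟪ut c, u c.1⟫_ℝ = (c.2.2 : ℝ) / 2 - 1 := by
    intro c hc; rw [real_inner_comm, h1 c hc]
  -- inner products with the base vector
  have i1 : ∀ p s, ⟪b none, G (.inl (p, s))⟫_ℝ = 1 / 2 := by
    intro p s
    cases s <;>
    simp only [hG, inner_add_right, inner_smul_right, hbb, hbe] <;> ring
  have i2 : ∀ c, ⟪b none, G (.inr (c, true))⟫_ℝ = (c.2.2 : ℝ) / 8 := by
    intro c
    simp only [hG, inner_add_right, inner_smul_right, hbb, hbe, hbn]; ring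
  have i3 : ∀ c, ⟪b none, G (.inr (c, false))⟫_ℝ = (4 - c.2.2 : ℝ) / 8 := by
    intro c
    simp only [hG, inner_add_right, inner_sub_right, inner_smul_right, hbb, hbe, hbn]; ring
  -- norms
  have n1 : ∀ p s, ⟪G (.inl (p, s)), G (.inl (p, s))⟫_ℝ = 1 / 2 := by
    intro p s
    cases s <;>
    simp only [hG, inner_add_right, inner_smul_right, inner_add_left, inner_smul_left, hbb, hbe,
      heb, he, hu, RCLike.conj_to_real] <;> norm_num
  have n2 : ∀ c ∈ C, ⟪G (.inr (c, true)), G (.inr (c, true))⟫_ℝ = (c.2.2 : ℝ) / 8 := by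
    intro c hc
    simp only [hG, inner_add_right, inner_smul_right, inner_add_left, inner_smul_left, hbb, hbe,
      heb, he, hu, hut, RCLike.conj_to_real, hbn, hbn', h1' c hc, h1 c hc]
    linear_combination hw2 c hc
  have n3 : ∀ c ∈ C, ⟪G (.inr (c, false)), G (.inr (c, false))⟫_ℝ = (4 - c.2.2 : ℝ) / 8 := by
    intro c hc
    simp only [hG, inner_add_right, inner_smul_right, inner_add_left, inner_smul_left,
      inner_sub_left, inner_sub_right, hbb, hbe,
      heb, he, hu, hut, RCLike.conj_to_real, hbn, hbn', h1' c hc, h1 c hc]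
    linear_combination hw2 c hc
  -- orthogonality
  have o1 : ∀ p, ⟪G (.inl (p, true)), G (.inl (p, false))⟫_ℝ = 0 := by
    intro p
    simp only [hG, inner_add_right, inner_smul_right, inner_add_left, inner_smul_left, hbb, hbe,
      heb, he, hu, RCLike.conj_to_real]
    norm_num
  have o2 : ∀ c ∈ C, ⟪G (.inr (c, true)), G (.inr (c, false))⟫_ℝ = 0 := by
    intro c hc
    simp only [hG, inner_add_right, inner_smul_right, inner_add_left, inner_smul_left,
      inner_sub_right, hbb, hbe,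
      heb, he, hu, hut, RCLike.conj_to_real, hbn, hbn', h1' c hc, h1 c hc]
    linear_combination - hw2 c hc
  have o3 : ∀ c ∈ C, ∀ s, ⟪G (.inr (c, s)), G (.inl (c.1, true))⟫_ℝ = 0 := by
    intro c hc s
    cases s <;>
    simp only [hG, inner_add_right, inner_smul_right, inner_add_left, inner_smul_left,
      inner_sub_left, hbb, hbe,
      heb, he, hu, RCLike.conj_to_real, hbn', h1' c hc] <;> ring
  have o4 : ∀ c ∈ C, ∀ s, |⟪G (.inr (c, s)), G (.inl (c.2.1, s))⟫_ℝ| ≤ δ := by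
    intro c hc s
    have a2 := abs_le.1 (h2 c hc)
    have a3 := abs_le.1 (h3 c hc)
    cases s
    · have : ⟪G (.inr (c, false)), G (.inl (c.2.1, false))⟫_ℝ =
          1 / 8 * ((⟪u c.1, u c.2.1⟫_ℝ - ((c.2.2 : ℝ) / 2 - 1)) - (⟪ut c, u c.2.1⟫_ℝ - 1)) := by
        simp only [hG, inner_add_right, inner_smul_right, inner_add_left, inner_smul_left,
          inner_sub_left, hbb, hbe, heb, he, RCLike.conj_to_real, hbn']
        ring
      rw [this, abs_le]
      constructor <;> linarith [a2.1, a2.2, a3.1, a3.2]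
    · have : ⟪G (.inr (c, true)), G (.inl (c.2.1, true))⟫_ℝ =
          - (1 / 8) * ((⟪u c.1, u c.2.1⟫_ℝ - ((c.2.2 : ℝ) / 2 - 1)) + (⟪ut c, u c.2.1⟫_ℝ - 1)) := by
        simp only [hG, inner_add_right, inner_smul_right, inner_add_left, inner_smul_left,
          hbb, hbe, heb, he, RCLike.conj_to_real, hbn']
        ring
      rw [this, abs_le]
      constructor <;> linarith [a2.1, a2.2, a3.1, a3.2]
  -- vertices of the list
  have hval : ∀ x ∈ vlist C, (∃ c ∈ C, ∃ i < 4, x = cv c i) ∨ ∃ p s, ∃ i < 4, x = uv p s i := by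
    intro x hx
    obtain ⟨c, hc, i, hi, h⟩ := (mem_vlist C x).1 hx
    rcases h with h | h | h | h | h
    · exact Or.inl ⟨c, hc, i, hi, h⟩
    · exact Or.inr ⟨_, _, i, hi, h⟩
    · exact Or.inr ⟨_, _, i, hi, h⟩
    · exact Or.inr ⟨_, _, i, hi, h⟩
    · exact Or.inr ⟨_, _, i, hi, h⟩
  have hcard : ∀ x ∈ vlist C, ⟪b none, G (grp x)⟫_ℝ = ((grpF (grp x)).card : ℝ) / 8 ∧
      ⟪G (grp x), G (grp x)⟫_ℝ = ((grpF (grp x)).card : ℝ) / 8 := by
    intro x hx
    rcases hval x hx with ⟨c, hc, i, hi, rfl⟩ | ⟨p, s, i, hi, rfl⟩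
    · rw [grp_cv]
      cases hd : decide (i < c.2.2)
      · rw [card_inr_false, i3, n3 c hc, Nat.cast_sub (hC c hc)]
        exact ⟨by norm_num, by norm_num⟩
      · rw [card_inr_true c (hC c hc), i2, n2 c hc]
        exact ⟨rfl, rfl⟩
    · rw [grp_uv, card_inl, i1, n1]
      norm_num
  have hmem : ∀ x ∈ vlist C, x ∈ grpF (grp x) := by
    intro x hx
    rcases hval x hx with ⟨c, hc, i, hi, rfl⟩ | ⟨p, s, i, hi, rfl⟩
    · rw [grp_cv]
      exact Finset.mem_image.2 ⟨i, Finset.mem_filter.2 ⟨Finset.mem_range.2 hi, rfl⟩, rfl⟩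
    · rw [grp_uv]
      exact Finset.mem_image.2 ⟨i, Finset.mem_range.2 hi, rfl⟩
  have hpos : ∀ x ∈ vlist C, 1 ≤ ((grpF (grp x)).card : ℝ) := by
    intro x hx
    have : 0 < (grpF (grp x)).card := Finset.card_pos.2 ⟨x, hmem x hx⟩
    exact_mod_cast this
  obtain ⟨H₂, _, _, z₀, z, hz0, hz1, hz2⟩ := blowup2 grp grpF grp_of_mem (b none) G
  have zz : ∀ x ∈ vlist C, ⟪z x, z x⟫_ℝ = 1 / 8 := by
    intro x hx
    rw [hz2 x x (hmem x hx) (hmem x hx), (hcard x hx).2, if_pos rfl, if_pos rfl]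
    have := hpos x hx
    have h0 : ((grpF (grp x)).card : ℝ) ≠ 0 := by positivity
    field_simp
    ring
  have z0 : ∀ x ∈ vlist C, ⟪z₀, z x⟫_ℝ = 1 / 8 := by
    intro x hx
    rw [hz1 x, (hcard x hx).1]
    have := hpos x hx
    have h0 : ((grpF (grp x)).card : ℝ) ≠ 0 := by positivity
    field_simp
  -- same group
  have sg : ∀ x ∈ vlist C, ∀ x' ∈ vlist C, x ≠ x' → grp x = grp x' → ⟪z x, z x'⟫_ℝ = 0 := by
    intro x hx x' hx' hne hg
    rw [hz2 x x' (hmem x hx) (hmem x' hx'), if_neg hne, if_pos hg, ← hg, (hcard x hx).2]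
    have := hpos x hx
    have h0 : ((grpF (grp x)).card : ℝ) ≠ 0 := by positivity
    field_simp
    ring
  -- different groups
  have dg : ∀ x ∈ vlist C, ∀ x' ∈ vlist C, grp x ≠ grp x' → |⟪G (grp x), G (grp x')⟫_ℝ| ≤ δ →
      |⟪z x, z x'⟫_ℝ| ≤ δ := by
    intro x hx x' hx' hg hle
    have hne : x ≠ x' := fun h => hg (congrArg grp h)
    rw [hz2 x x' (hmem x hx) (hmem x' hx'), if_neg hne, if_neg hg, sub_zero, mul_zero, add_zero,
      abs_mul]
    have p1 := hpos x hx
    have p2 := hpos x' hx'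
    have q1 : 1 / ((grpF (grp x)).card : ℝ) ≤ 1 := by
      rw [div_le_one (by linarith)]; exact p1
    have q2 : 1 / ((grpF (grp x')).card : ℝ) ≤ 1 := by
      rw [div_le_one (by linarith)]; exact p2
    have q3 : 0 ≤ 1 / ((grpF (grp x)).card : ℝ) := by positivity
    have q4 : 0 ≤ 1 / ((grpF (grp x')).card : ℝ) := by positivity
    rw [abs_of_nonneg (mul_nonneg q3 q4)]
    calc _ ≤ (1 : ℝ) * δ := by
          refine mul_le_mul ?_ hle (abs_nonneg _) zero_le_one
          calc _ ≤ (1 : ℝ) * 1 := mul_le_mul q1 q2 q4 zero_le_one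
            _ = 1 := one_mul 1
      _ = δ := one_mul δ
  have all : ∀ x ∈ vlist C, ∀ x' ∈ vlist C, x ≠ x' →
      (grp x = grp x' ∨ |⟪G (grp x), G (grp x')⟫_ℝ| ≤ δ) → |⟪z x, z x'⟫_ℝ| ≤ δ := by
    intro x hx x' hx' hne h
    by_cases hg : grp x = grp x'
    · rw [sg x hx x' hx' hne hg, abs_zero]; exact hδ
    · exact dg x hx x' hx' hg (h.resolve_left hg)
  have z2 : ∀ {a b : H₁}, ⟪a, b⟫_ℝ = 0 → |⟪a, b⟫_ℝ| ≤ δ := by
    intro a b h; rw [h, abs_zero]; exact hδ
  have hbase : ∀ x ∈ vlist C, ∀ x' ∈ vlist C, vbase x x' →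
      (grp x = grp x' ∨ |⟪G (grp x), G (grp x')⟫_ℝ| ≤ δ) := by
    intro x hx x' hx' hadj
    rcases hadj with ⟨h1, h2, h3, -⟩ | ⟨h1, h2, h3, -⟩ | ⟨h1, h2, h3⟩
    · have g1 : grp x = .inl (x.2.1.1, x.2.2.1) := by simp [grp, h1]
      have g2 : grp x' = .inl (x.2.1.1, x'.2.2.1) := by simp [grp, h2, h3]
      rw [g1, g2]
      cases x.2.2.1 <;> cases x'.2.2.1
      · exact Or.inl rfl
      · refine Or.inr (z2 ?_)
        rw [real_inner_comm]; exact o1 _
      · exact Or.inr (z2 (o1 _))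
      · exact Or.inl rfl
    · rcases hval x hx with ⟨c, hc, i, hi, rfl⟩ | ⟨p, s, i, hi, rfl⟩
      · rcases hval x' hx' with ⟨c', hc', i', hi', rfl⟩ | ⟨p, s, i', hi', rfl⟩
        · have h4 : c = c' := h3
          subst h4
          rw [grp_cv, grp_cv]
          cases decide (i < c.2.2) <;> cases decide (i' < c.2.2)
          · exact Or.inl rfl
          · refine Or.inr (z2 ?_)
            rw [real_inner_comm]; exact o2 _ hc
          · exact Or.inr (z2 (o2 _ hc))
          · exact Or.inl rfl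
        · simp [uv] at h2
      · simp [uv] at h1
    · rcases hval x hx with ⟨c, hc, i, hi, rfl⟩ | ⟨p, s, i, hi, rfl⟩
      · have g2 : grp x' = .inl (x'.2.1.1, x'.2.2.1) := by simp [grp, h2]
        rw [g2, grp_cv]
        rcases h3 with ⟨h4, h5⟩ | ⟨h4, h5⟩
        · rw [h4, h5]; exact Or.inr (z2 (o3 c hc _))
        · rw [h4, h5]; exact Or.inr (o4 c hc _)
      · simp [uv] at h1
  have hv : ∀ x ∈ vlist C, ∀ x' ∈ vlist C, vadj x x' → |⟪z x, z x'⟫_ℝ| ≤ δ := by
    intro x hx x' hx' hadj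
    have hne : x ≠ x' := by
      rintro rfl; exact vadj_irrefl x hadj
    refine all x hx x' hx' hne ?_
    rcases hadj with h | h
    · exact hbase x hx x' hx' h
    · rcases hbase x' hx' x hx h with h | h
      · exact Or.inl h.symm
      · rw [real_inner_comm] at h; exact Or.inr h
  set L := vlist C with hL
  have hget : ∀ i : Fin L.length, L[i] ∈ L := fun i => List.getElem_mem _
  refine ⟨Matrix.of fun i j => ⟪(i.elim z₀ (fun i => z (L.get i)) : H₂),
    (j.elim z₀ (fun i => z (L.get i)) : H₂)⟫_ℝ, gram_posSemidef _, ?_, ?_, ?_, ?_⟩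
  · change ⟪z₀, z₀⟫_ℝ = 1
    rw [hz0, hbb]
  · intro i
    exact ⟨z0 _ (hget i), zz _ (hget i)⟩
  · rintro i j ⟨-, hE | hE⟩
    · exact hv _ (hget i) _ (hget j) ((mem_edges L i j).1 hE)
    · exact hv _ (hget i) _ (hget j) (vadj_symm ((mem_edges L j i).1 hE))
  · intro r1 r2 r3
    have r2' : ∀ c p, ⟪ut c, u p⟫_ℝ ∈ QQ := by
      intro c p; rw [real_inner_comm]; exact r2 p c
    have hn : ∀ n : ℕ, (n : ℝ) ∈ QQ := ofNat_mem_QQ
    have c4 : (1 / 4 : ℝ) ∈ QQ := by
      have := div_mem (one_mem QQ) (hn 4); exact_mod_cast this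
    have c4' : (-1 / 4 : ℝ) ∈ QQ := by
      have := neg_mem c4
      have e : (-1 / 4 : ℝ) = - (1 / 4) := by norm_num
      rw [e]; exact this
    have c2 : (1 / 2 : ℝ) ∈ QQ := by
      have := div_mem (one_mem QQ) (hn 2); exact_mod_cast this
    have c2' : (-1 / 2 : ℝ) ∈ QQ := by
      have := neg_mem c2
      have e : (-1 / 2 : ℝ) = - (1 / 2) := by norm_num
      rw [e]; exact this
    have c8 : (1 / 8 : ℝ) ∈ QQ := by
      have := div_mem (one_mem QQ) (hn 8); exact_mod_cast this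
    have ct : ∀ c : Cst, (c.2.2 : ℝ) / 8 ∈ QQ := by
      intro c
      have := mul_mem (hn c.2.2) c8
      rwa [mul_one_div] at this
    have ct' : ∀ c : Cst, (4 - c.2.2 : ℝ) / 8 ∈ QQ := by
      intro c
      have := mul_mem (sub_mem (hn 4) (hn c.2.2)) c8
      rw [mul_one_div] at this
      exact_mod_cast this
    have cw : ∀ c ∈ C, w c * w c ∈ QQ := by
      intro c hc
      rw [hw2 c hc]
      have := div_mem (mul_mem (hn c.2.2) (sub_mem (hn 4) (hn c.2.2))) (hn 64)
      exact_mod_cast this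
    have zr : (0 : ℝ) ∈ QQ := zero_mem _
    have or1 : (1 : ℝ) ∈ QQ := one_mem _
    -- Gram matrix of the groups
    have gg1 : ∀ p s q s', ⟪G (.inl (p, s)), G (.inl (q, s'))⟫_ℝ ∈ QQ := by
      intro p s q s'
      cases s <;> cases s' <;>
      simp only [hG, inner_add_right, inner_smul_right, inner_add_left, inner_smul_left, hbb, hbe,
        heb, he, RCLike.conj_to_real] <;>
      repeat' first
        | assumption
        | exact r1 _ _
        | apply add_mem
        | apply mul_mem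
    have gg2 : ∀ c s q s', ⟪G (.inr (c, s)), G (.inl (q, s'))⟫_ℝ ∈ QQ := by
      intro c s q s'
      cases s <;> cases s' <;>
      simp only [hG, inner_add_right, inner_smul_right, inner_add_left, inner_smul_left,
        inner_sub_left, hbb, hbe, heb, he, RCLike.conj_to_real, hbn', mul_zero, add_zero] <;>
      repeat' first
        | assumption
        | exact r1 _ _
        | exact r2' _ _
        | exact ct _
        | exact ct' _
        | apply add_mem
        | apply sub_mem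
        | apply neg_mem
        | apply mul_mem
    have gg3 : ∀ c ∈ C, ∀ s, ∀ c' ∈ C, ∀ s', ⟪G (.inr (c, s)), G (.inr (c', s'))⟫_ℝ ∈ QQ := by
      intro c hc s c' hc' s'
      have hwb : w c * (w c' * ⟪b (some c), b (some c')⟫_ℝ) ∈ QQ := by
        rw [hb]
        by_cases h : some c = some c'
        · rw [if_pos h]
          have h' : c = c' := Option.some.inj h
          subst h'
          rw [mul_one]
          exact cw c hc
        · rw [if_neg h, mul_zero, mul_zero]; exact zr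
      have hwb0 : w c' * (w c * ⟪b (some c), b (some c')⟫_ℝ) ∈ QQ := by
        have e : w c' * (w c * ⟪b (some c), b (some c')⟫_ℝ) =
          w c * (w c' * ⟪b (some c), b (some c')⟫_ℝ) := by ring
        rw [e]; exact hwb
      have hwb1 : w c' * (-w c * ⟪b (some c), b (some c')⟫_ℝ) ∈ QQ := by
        have := neg_mem hwb
        have e : w c' * (-w c * ⟪b (some c), b (some c')⟫_ℝ) =
          - (w c * (w c' * ⟪b (some c), b (some c')⟫_ℝ)) := by ring
        rw [e]; exact this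
      have hwb2 : -w c' * (w c * ⟪b (some c), b (some c')⟫_ℝ) ∈ QQ := by
        have := neg_mem hwb
        have e : -w c' * (w c * ⟪b (some c), b (some c')⟫_ℝ) =
          - (w c * (w c' * ⟪b (some c), b (some c')⟫_ℝ)) := by ring
        rw [e]; exact this
      have hwb3 : -w c' * (-w c * ⟪b (some c), b (some c')⟫_ℝ) ∈ QQ := by
        have e : -w c' * (-w c * ⟪b (some c), b (some c')⟫_ℝ) =
          (w c * (w c' * ⟪b (some c), b (some c')⟫_ℝ)) := by ring
        rw [e]; exact hwb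
      cases s <;> cases s' <;>
      simp only [hG, inner_add_right, inner_smul_right, inner_add_left, inner_smul_left,
        inner_sub_left, inner_sub_right, hbb, hbe, heb, he, RCLike.conj_to_real, hbn', hbn,
        mul_zero, add_zero, zero_add, sub_zero] <;>
      repeat' first
        | assumption
        | exact r1 _ _
        | exact r2 _ _
        | exact r2' _ _
        | exact r3 _ _
        | exact ct _
        | exact ct' _
        | apply add_mem
        | apply sub_mem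
        | apply neg_mem
        | apply mul_mem
    have zr0 : ⟪z₀, z₀⟫_ℝ ∈ QQ := by rw [hz0, hbb]; exact or1
    have zr1 : ∀ x ∈ L, ⟪z₀, z x⟫_ℝ ∈ QQ := by
      intro x hx; rw [z0 x hx]; exact c8
    have gg : ∀ x ∈ L, ∀ x' ∈ L, ⟪G (grp x), G (grp x')⟫_ℝ ∈ QQ := by
      intro x hx x' hx'
      rcases hval x hx with ⟨c, hc, i, hi, rfl⟩ | ⟨p, s, i, hi, rfl⟩
      · rcases hval x' hx' with ⟨c', hc', i', hi', rfl⟩ | ⟨q, s', i', hi', rfl⟩
        · rw [grp_cv, grp_cv]; exact gg3 c hc _ c' hc' _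
        · rw [grp_cv, grp_uv]; exact gg2 c _ q s'
      · rcases hval x' hx' with ⟨c', hc', i', hi', rfl⟩ | ⟨q, s', i', hi', rfl⟩
        · rw [grp_cv, grp_uv, real_inner_comm]; exact gg2 c' _ p s
        · rw [grp_uv, grp_uv]; exact gg1 p s q s'
    have zr2 : ∀ x ∈ L, ∀ x' ∈ L, ⟪z x, z x'⟫_ℝ ∈ QQ := by
      intro x hx x' hx'
      rw [hz2 x x' (hmem x hx) (hmem x' hx')]
      have k1 := div_mem or1 (hn ((grpF (grp x)).card))
      have k2 := div_mem or1 (hn ((grpF (grp x')).card))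
      refine add_mem (mul_mem (mul_mem k1 k2) (gg x hx x' hx')) (mul_mem c8 (sub_mem ?_ ?_))
      · split_ifs
        · exact or1
        · exact zr
      · split_ifs
        · exact k1
        · exact zr
    intro a b
    rcases a with _ | i <;> rcases b with _ | j
    · exact zr0
    · exact zr1 _ (hget j)
    · change ⟪z (L.get i), z₀⟫_ℝ ∈ QQ
      rw [real_inner_comm]; exact zr1 _ (hget i)
    · exact zr2 _ (hget i) _ (hget j)

end Pool.Agent.Helper95.ThetaGap
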