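import Mathlib
import Pool.Agent.Helper95.ThetaGap.Chain
import Pool.Agent.Helper95.ThetaGap.Comp2

/-!
# Repeated squaring by relations between inner products: completeness
-/

open scoped InnerProductSpace

namespace Pool.Agent.Helper95.ThetaGap

open Pool.Agent.Helper92.Theta

theorem exists_orth (w : ℕ × ℕ → ℝ) (hw : ∀ k, 0 ≤ w k) :
    ∃ (H : Type) (_ : NormedAddCommGroup H) (_ : InnerProductSpace ℝ H) (b : ℕ × ℕ → H),
      ∀ k l, ⟪b k, b l⟫_ℝ = if k = l then w k else 0 := by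
  obtain ⟨H, _, _, -, b, -, hb, -, -⟩ := exists_ext (EuclideanSpace ℝ (Fin 0)) (ℕ × ℕ)
  refine ⟨H, inferInstance, inferInstance, fun k => Real.sqrt (w k) • b k, fun k l => ?_⟩
  rw [inner_smul_left, inner_smul_right, hb]
  by_cases h : k = l
  · subst h
    rw [if_pos rfl, if_pos rfl, mul_one]
    exact Real.mul_self_sqrt (hw k)
  · rw [if_neg h, if_neg h, mul_zero, mul_zero]

/-- The block of a basis vector. -/
def blk (k : ℕ × ℕ) : ℕ :=
  if k.1 = 0 then 0 else if k.1 = 1 then 1 else if k.1 ≤ 3 then 2 * k.2 + 2 else 2 * k.2 + 3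

section

variable {H : Type} [NormedAddCommGroup H] [InnerProductSpace ℝ H]

/-- The vector lies in the span of a block. -/
def InB (b : ℕ × ℕ → H) (n : ℕ) (v : H) : Prop := v ∈ Submodule.span ℝ (b '' {k | blk k = n})

lemma InB.add {b : ℕ × ℕ → H} {n : ℕ} {v w : H} (hv : InB b n v) (hw : InB b n w) :
    InB b n (v + w) := add_mem hv hw

lemma InB.sub {b : ℕ × ℕ → H} {n : ℕ} {v w : H} (hv : InB b n v) (hw : InB b n w) :
    InB b n (v - w) := sub_mem hv hw

lemma InB.neg {b : ℕ × ℕ → H} {n : ℕ} {v : H} (hv : InB b n v) :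
    InB b n (-v) := neg_mem hv

lemma InB.smul {b : ℕ × ℕ → H} {n : ℕ} {v : H} (a : ℝ) (hv : InB b n v) :
    InB b n (a • v) := Submodule.smul_mem _ a hv

lemma InB.basis (b : ℕ × ℕ → H) {n : ℕ} (k : ℕ × ℕ) (hk : blk k = n) : InB b n (b k) :=
  Submodule.subset_span ⟨k, hk, rfl⟩

lemma InB.perp {b : ℕ × ℕ → H} {w : ℕ × ℕ → ℝ} (hb : ∀ k l, ⟪b k, b l⟫_ℝ = if k = l then w k else 0)
    {n m : ℕ} (hnm : n ≠ m) {v v' : H} (hv : InB b n v) (hv' : InB b m v') : ⟪v, v'⟫_ℝ = 0 := by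
  have h1 : ∀ k, blk k = n → ∀ x, InB b m x → ⟪b k, x⟫_ℝ = 0 := by
    intro k hk x hx
    unfold InB at hx
    induction hx using Submodule.span_induction with
    | mem x hx =>
      obtain ⟨l, hl, rfl⟩ := hx
      rw [hb, if_neg]
      rintro rfl
      exact hnm (hk.symm.trans hl)
    | zero => exact inner_zero_right _
    | add x y _ _ h1 h2 => rw [inner_add_right, h1, h2, add_zero]
    | smul a x _ h => rw [inner_smul_right, h, mul_zero]
  unfold InB at hv
  induction hv using Submodule.span_induction with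
  | mem x hx =>
    obtain ⟨k, hk, rfl⟩ := hx
    exact h1 k hk _ hv'
  | zero => exact inner_zero_left _
  | add x y _ _ h1 h2 => rw [inner_add_left, h1, h2, add_zero]
  | smul a x _ h => rw [inner_smul_left, h, mul_zero]

/-- The vector is a rational combination of the basis vectors. -/
def Rat1 (b : ℕ × ℕ → H) (v : H) : Prop := v ∈ Submodule.span QQ (Set.range b)

lemma Rat1.add {b : ℕ × ℕ → H} {v w : H} (hv : Rat1 b v) (hw : Rat1 b w) :
    Rat1 b (v + w) := add_mem hv hw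

lemma Rat1.sub {b : ℕ × ℕ → H} {v w : H} (hv : Rat1 b v) (hw : Rat1 b w) :
    Rat1 b (v - w) := sub_mem hv hw

lemma Rat1.neg {b : ℕ × ℕ → H} {v : H} (hv : Rat1 b v) :
    Rat1 b (-v) := neg_mem hv

lemma Rat1.smul {b : ℕ × ℕ → H} {v : H} {a : ℝ} (ha : a ∈ QQ) (hv : Rat1 b v) :
    Rat1 b (a • v) := Submodule.smul_mem _ (⟨a, ha⟩ : QQ) hv

lemma Rat1.basis (b : ℕ × ℕ → H) (k : ℕ × ℕ) : Rat1 b (b k) :=
  Submodule.subset_span ⟨k, rfl⟩

lemma Rat1.inner {b : ℕ × ℕ → H} {w : ℕ × ℕ → ℝ}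
    (hb : ∀ k l, ⟪b k, b l⟫_ℝ = if k = l then w k else 0) (hw : ∀ k, w k ∈ QQ)
    {v v' : H} (hv : Rat1 b v) (hv' : Rat1 b v') : ⟪v, v'⟫_ℝ ∈ QQ := by
  have h1 : ∀ k, ∀ x, Rat1 b x → ⟪b k, x⟫_ℝ ∈ QQ := by
    intro k x hx
    unfold Rat1 at hx
    induction hx using Submodule.span_induction with
    | mem x hx =>
      obtain ⟨l, rfl⟩ := hx
      rw [hb]
      split_ifs
      · exact hw k
      · exact zero_mem _
    | zero => rw [inner_zero_right]; exact zero_mem _
    | add x y _ _ h1 h2 => rw [inner_add_right]; exact add_mem h1 h2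
    | smul a x _ h =>
      have : a • x = (a : ℝ) • x := rfl
      rw [this, inner_smul_right]; exact mul_mem a.2 h
  unfold Rat1 at hv
  induction hv using Submodule.span_induction with
  | mem x hx =>
    obtain ⟨k, rfl⟩ := hx
    exact h1 k _ hv'
  | zero => rw [inner_zero_left]; exact zero_mem _
  | add x y _ _ h1 h2 => rw [inner_add_left]; exact add_mem h1 h2
  | smul a x _ h =>
    have : a • x = (a : ℝ) • x := rfl
    rw [this, inner_smul_left]; exact mul_mem a.2 h

end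

end Pool.Agent.Helper95.ThetaGap
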