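import Mathlib
import Pool.Agent.Helper95.ThetaGap.CompU

/-!
# The vectors for the two chains
-/

open scoped InnerProductSpace

namespace Pool.Agent.Helper95.ThetaGap

open Pool.Agent.Helper92.Theta

section

variable {H : Type} [NormedAddCommGroup H] [InnerProductSpace ℝ H]

section Defs

variable (b : ℕ × ℕ → H) (X lam : ℕ → ℝ) (M : ℕ)

/-- vectors -/
noncomputable def vf : ℕ → H
  | 0 => (1 / 2 : ℝ) • ((-1 : ℝ) • b (1, 0) + (-1 : ℝ) • b (1, 1) + (-1 : ℝ) • b (1, 2) +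
      (1 : ℝ) • b (1, 4))
  | i + 1 => X i • b (2, i) + b (3, i)

/-- vectors -/
noncomputable def vr : ℕ → H
  | 0 => (1 / 2 : ℝ) • ((1 : ℝ) • b (1, 0) + (1 : ℝ) • b (1, 1) + (1 : ℝ) • b (1, 2) +
      (1 : ℝ) • b (1, 3))
  | i + 1 => X i • b (2, i) - b (3, i)

/-- vectors -/
noncomputable def vR (j : ℕ) : H := b (4, j) + b (5, j)
/-- vectors -/
noncomputable def vF (j : ℕ) : H := b (4, j) - b (5, j)
/-- vectors -/
noncomputable def vG (j : ℕ) : H := lam j • b (4, j) + b (6, j)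
/-- vectors -/
noncomputable def vK (j : ℕ) : H := lam j • b (4, j) - b (6, j)

/-- previous vectors -/
noncomputable def qR : ℕ → H
  | 0 => vr b X M
  | j + 1 => vR b j
/-- previous vectors -/
noncomputable def qF : ℕ → H
  | 0 => vf b X M
  | j + 1 => vF b j
/-- previous vectors -/
noncomputable def qG : ℕ → H
  | 0 => vr b X M
  | j + 1 => vG b lam j
/-- previous vectors -/
noncomputable def qK : ℕ → H
  | 0 => vf b X M
  | j + 1 => vK b lam j

/-- all vectors -/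
noncomputable def uu (p : Nm) : H :=
  match p.1 with
  | 10 => b (0, p.2.1)
  | 11 => b (1, p.2.1)
  | 12 => vf b X p.2.1
  | 13 => vr b X p.2.1
  | 14 => b (2, p.2.1)
  | 15 => (1 / 2 : ℝ) • (vf b X (p.2.1 + 1) - vr b X p.2.1 + b (0, 0) + b (0, 1))
  | 16 => (1 / 2 : ℝ) • (vr b X (p.2.1 + 1) - vr b X p.2.1 + b (0, 0) + b (0, 1))
  | 17 => (1 / 2 : ℝ) • (b (2, p.2.1) + vf b X p.2.1 - b (0, 0) + b (0, 2))
  | 20 => vR b p.2.1
  | 21 => vF b p.2.1
  | 22 => vG b lam p.2.1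
  | 23 => vK b lam p.2.1
  | 24 => (1 / 2 : ℝ) • (vR b p.2.1 - qR b X M p.2.1 + b (0, 0) + b (0, 1))
  | 25 => (1 / 2 : ℝ) • (vF b p.2.1 + qF b X M p.2.1 + b (0, 0) - b (0, 1))
  | 26 => (1 / 2 : ℝ) • (vG b lam p.2.1 - qG b X lam M p.2.1 + b (0, 0) + b (0, 1))
  | 27 => (1 / 2 : ℝ) • (vK b lam p.2.1 - qG b X lam M p.2.1 + b (0, 0) + b (0, 1))
  | 28 => (1 / 2 : ℝ) • (vF b p.2.1 + qK b X lam M p.2.1 - b (0, 0) + b (0, 2))
  | 29 => (1 / 2 : ℝ) • (vR b p.2.1 + qK b X lam M p.2.1 - b (0, 0) + b (0, 2))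
  | _ => b (0, 0)

/-- weights -/
noncomputable def wt (s : ℝ) (k : ℕ × ℕ) : ℝ :=
  if k.1 = 3 then 1 - X k.2 ^ 2 else if k.1 = 4 then s / 2 else if k.1 = 5 then 1 - s / 2 else
    if k.1 = 6 then 1 - lam k.2 ^ 2 * (s / 2) else 1

end Defs

/-- A unit vector in a block. -/
def Nice (b : ℕ × ℕ → H) (n : ℕ) (v : H) : Prop := ⟪v, v⟫_ℝ = 1 ∧ InB b n v

/-- block numbers -/
def bk : ℕ → ℕ
  | 0 => 1
  | i + 1 => 2 * i + 2

/-- block numbers -/
def qb (M : ℕ) : ℕ → ℕ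
  | 0 => bk M
  | j + 1 => 2 * j + 3

lemma bk_ne (i : ℕ) : bk i ≠ 0 := by cases i <;> simp [bk]

lemma bk_ne' (i : ℕ) : 2 * i + 2 ≠ bk i := by cases i <;> simp [bk]

lemma bk_ne_odd (i j : ℕ) (hj : 0 < j) : 2 * j + 1 ≠ bk i := by
  cases i
  · simp only [bk]; omega
  · simp only [bk]; omega

lemma qb_ne (M j : ℕ) : qb M j ≠ 0 := by
  cases j
  · exact bk_ne M
  · simp [qb]

lemma qb_ne' (M j : ℕ) : 2 * j + 3 ≠ qb M j := by
  cases j
  · exact bk_ne_odd M 1 one_pos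
  · simp [qb]

variable {b : ℕ × ℕ → H} {X lam : ℕ → ℝ} {M : ℕ} {s : ℝ}

lemma inb1 (c : ℕ) : InB b 1 (b (1, c)) := InB.basis b (1, c) (by simp [blk])
lemma inb2 (i : ℕ) : InB b (2 * i + 2) (b (2, i)) := InB.basis b (2, i) (by simp [blk])
lemma inb3 (i : ℕ) : InB b (2 * i + 2) (b (3, i)) := InB.basis b (3, i) (by simp [blk])
lemma inb4 (j : ℕ) : InB b (2 * j + 3) (b (4, j)) := InB.basis b (4, j) (by simp [blk])
lemma inb5 (j : ℕ) : InB b (2 * j + 3) (b (5, j)) := InB.basis b (5, j) (by simp [blk])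
lemma inb6 (j : ℕ) : InB b (2 * j + 3) (b (6, j)) := InB.basis b (6, j) (by simp [blk])

lemma vf_inB (i : ℕ) : InB b (bk i) (vf b X i) := by
  cases i with
  | zero =>
    exact InB.smul _ ((((inb1 0).smul _).add ((inb1 1).smul _)).add ((inb1 2).smul _) |>.add
      ((inb1 4).smul _))
  | succ i => exact ((inb2 i).smul _).add (inb3 i)

lemma vr_inB (i : ℕ) : InB b (bk i) (vr b X i) := by
  cases i with
  | zero =>
    exact InB.smul _ ((((inb1 0).smul _).add ((inb1 1).smul _)).add ((inb1 2).smul _) |>.add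
      ((inb1 3).smul _))
  | succ i => exact ((inb2 i).smul _).sub (inb3 i)

section

variable (hb : ∀ k l, ⟪b k, b l⟫_ℝ = if k = l then wt X lam s k else 0)
include hb

lemma nice_b (k i : ℕ) (hk : k ≤ 2) : Nice b (if k = 0 then 0 else if k = 1 then 1 else 2 * i + 2)
    (b (k, i)) := by
  refine ⟨?_, InB.basis b _ ?_⟩
  · rw [hb, if_pos rfl]
    unfold wt
    simp only
    rw [if_neg (by omega), if_neg (by omega), if_neg (by omega), if_neg (by omega)]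
  · unfold blk
    simp only
    rw [if_pos (show k ≤ 3 by omega)]

lemma nice_v (i : ℕ) : Nice b (2 * i + 2) (b (2, i)) := by
  have := nice_b hb 2 i le_rfl
  simpa using this

lemma b1_self (c : ℕ) : ⟪b (1, c), b (1, c)⟫_ℝ = 1 := by
  rw [hb, if_pos rfl]; simp [wt]

lemma b1_perp {c d : ℕ} (h : c ≠ d) : ⟪b (1, c), b (1, d)⟫_ℝ = 0 := by
  rw [hb, if_neg (by simpa using h)]

lemma inner_step (i : ℕ) : ⟪b (2, i), b (2, i)⟫_ℝ = 1 ∧ ⟪b (3, i), b (3, i)⟫_ℝ = 1 - X i ^ 2 ∧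
    ⟪b (2, i), b (3, i)⟫_ℝ = 0 ∧ ⟪b (3, i), b (2, i)⟫_ℝ = 0 := by
  refine ⟨?_, ?_, ?_, ?_⟩
  · rw [hb, if_pos rfl]; simp [wt]
  · rw [hb, if_pos rfl]; simp [wt]
  · rw [hb, if_neg (by simp)]
  · rw [hb, if_neg (by simp)]

lemma inner_blk (j : ℕ) : ⟪b (4, j), b (4, j)⟫_ℝ = s / 2 ∧ ⟪b (5, j), b (5, j)⟫_ℝ = 1 - s / 2 ∧
    ⟪b (6, j), b (6, j)⟫_ℝ = 1 - lam j ^ 2 * (s / 2) ∧
    ⟪b (4, j), b (5, j)⟫_ℝ = 0 ∧ ⟪b (5, j), b (4, j)⟫_ℝ = 0 ∧ ⟪b (4, j), b (6, j)⟫_ℝ = 0 ∧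
    ⟪b (6, j), b (4, j)⟫_ℝ = 0 ∧ ⟪b (5, j), b (6, j)⟫_ℝ = 0 ∧ ⟪b (6, j), b (5, j)⟫_ℝ = 0 := by
  refine ⟨?_, ?_, ?_, ?_, ?_, ?_, ?_, ?_, ?_⟩
  · rw [hb, if_pos rfl]; simp [wt]
  · rw [hb, if_pos rfl]; simp [wt]
  · rw [hb, if_pos rfl]; simp [wt]
  all_goals rw [hb, if_neg (by simp)]

lemma vf_self (i : ℕ) : ⟪vf b X i, vf b X i⟫_ℝ = 1 := by
  cases i with
  | zero =>
    exact unit_half (by norm_num) (by norm_num) (by norm_num) (by norm_num) (b1_self hb 0)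
      (b1_self hb 1) (b1_self hb 2) (b1_self hb 4) (b1_perp hb (by norm_num))
      (b1_perp hb (by norm_num)) (b1_perp hb (by norm_num)) (b1_perp hb (by norm_num))
      (b1_perp hb (by norm_num)) (b1_perp hb (by norm_num))
  | succ i =>
    obtain ⟨h1, h2, h3, h4⟩ := inner_step hb i
    simp only [vf, inner_add_left, inner_add_right, inner_smul_left, inner_smul_right, h1, h2, h3,
      h4, RCLike.conj_to_real]
    ring

lemma vr_self (i : ℕ) : ⟪vr b X i, vr b X i⟫_ℝ = 1 := by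
  cases i with
  | zero =>
    exact unit_half (by norm_num) (by norm_num) (by norm_num) (by norm_num) (b1_self hb 0)
      (b1_self hb 1) (b1_self hb 2) (b1_self hb 3) (b1_perp hb (by norm_num))
      (b1_perp hb (by norm_num)) (b1_perp hb (by norm_num)) (b1_perp hb (by norm_num))
      (b1_perp hb (by norm_num)) (b1_perp hb (by norm_num))
  | succ i =>
    obtain ⟨h1, h2, h3, h4⟩ := inner_step hb i
    simp only [vr, inner_sub_left, inner_sub_right, inner_smul_left, inner_smul_right, h1, h2, h3,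
      h4, RCLike.conj_to_real]
    ring

lemma nice_f (i : ℕ) : Nice b (bk i) (vf b X i) := ⟨vf_self hb i, vf_inB i⟩

lemma nice_r (i : ℕ) : Nice b (bk i) (vr b X i) := ⟨vr_self hb i, vr_inB i⟩

lemma inner_rf (hX0 : X 0 = 1 / 4) (hX : ∀ i, X (i + 1) = 2 * X i ^ 2) (i : ℕ) :
    1 + ⟪vr b X i, vf b X i⟫_ℝ = X i := by
  cases i with
  | zero =>
    have p : ∀ c d : ℕ, c ≠ d → ⟪b (1, c), b (1, d)⟫_ℝ = 0 := fun c d h => b1_perp hb h
    simp only [vr, vf, inner_add_left, inner_add_right, inner_smul_left, inner_smul_right,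
      RCLike.conj_to_real, b1_self hb, p 0 1 (by norm_num), p 0 2 (by norm_num),
      p 0 4 (by norm_num), p 1 0 (by norm_num), p 1 2 (by norm_num), p 1 4 (by norm_num),
      p 2 0 (by norm_num), p 2 1 (by norm_num), p 2 4 (by norm_num), p 3 0 (by norm_num),
      p 3 1 (by norm_num), p 3 2 (by norm_num), p 3 4 (by norm_num), hX0]
    norm_num
  | succ i =>
    obtain ⟨h1, h2, h3, h4⟩ := inner_step hb i
    simp only [vr, vf, inner_sub_left, inner_add_right, inner_smul_left, inner_smul_right, h1, h2,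
      h3, h4, RCLike.conj_to_real, hX]
    ring

lemma inner_fv (i : ℕ) : ⟪vf b X (i + 1), b (2, i)⟫_ℝ = X i := by
  obtain ⟨h1, h2, h3, h4⟩ := inner_step hb i
  simp only [vf, inner_add_left, inner_smul_left, h1, h4, RCLike.conj_to_real]
  ring

lemma inner_rv (i : ℕ) : ⟪vr b X (i + 1), b (2, i)⟫_ℝ = X i := by
  obtain ⟨h1, h2, h3, h4⟩ := inner_step hb i
  simp only [vr, inner_sub_left, inner_smul_left, h1, h4, RCLike.conj_to_real]
  ring

lemma nice_R (j : ℕ) : Nice b (2 * j + 3) (vR b j) := by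
  obtain ⟨h1, h2, h3, h4, h5, h6, h7, h8, h9⟩ := inner_blk hb j
  refine ⟨?_, (inb4 j).add (inb5 j)⟩
  simp only [vR, inner_add_left, inner_add_right, h1, h2, h4, h5]
  ring

lemma nice_F (j : ℕ) : Nice b (2 * j + 3) (vF b j) := by
  obtain ⟨h1, h2, h3, h4, h5, h6, h7, h8, h9⟩ := inner_blk hb j
  refine ⟨?_, (inb4 j).sub (inb5 j)⟩
  simp only [vF, inner_sub_left, inner_sub_right, h1, h2, h4, h5]
  ring

lemma nice_G (j : ℕ) : Nice b (2 * j + 3) (vG b lam j) := by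
  obtain ⟨h1, h2, h3, h4, h5, h6, h7, h8, h9⟩ := inner_blk hb j
  refine ⟨?_, ((inb4 j).smul _).add (inb6 j)⟩
  simp only [vG, inner_add_left, inner_add_right, inner_smul_left, inner_smul_right, h1, h3, h6,
    h7, RCLike.conj_to_real]
  ring

lemma nice_K (j : ℕ) : Nice b (2 * j + 3) (vK b lam j) := by
  obtain ⟨h1, h2, h3, h4, h5, h6, h7, h8, h9⟩ := inner_blk hb j
  refine ⟨?_, ((inb4 j).smul _).sub (inb6 j)⟩
  simp only [vK, inner_sub_left, inner_sub_right, inner_smul_left, inner_smul_right, h1, h3, h6,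
    h7, RCLike.conj_to_real]
  ring

lemma inner_RF (j : ℕ) : ⟪vR b j, vF b j⟫_ℝ = s - 1 := by
  obtain ⟨h1, h2, h3, h4, h5, h6, h7, h8, h9⟩ := inner_blk hb j
  simp only [vR, vF, inner_add_left, inner_sub_right, h1, h2, h4, h5]
  ring

lemma inner_GK (j : ℕ) : 1 + ⟪vG b lam j, vK b lam j⟫_ℝ = lam j ^ 2 * s := by
  obtain ⟨h1, h2, h3, h4, h5, h6, h7, h8, h9⟩ := inner_blk hb j
  simp only [vG, vK, inner_add_left, inner_sub_right, inner_smul_left, inner_smul_right, h1, h3,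
    h6, h7, RCLike.conj_to_real]
  ring

lemma inner_GF (j : ℕ) : ⟪vG b lam j, vF b j⟫_ℝ = lam j * (s / 2) := by
  obtain ⟨h1, h2, h3, h4, h5, h6, h7, h8, h9⟩ := inner_blk hb j
  simp only [vG, vF, inner_add_left, inner_sub_right, inner_smul_left, h1, h4, h7, h9,
    RCLike.conj_to_real]
  ring

lemma inner_GR (j : ℕ) : ⟪vG b lam j, vR b j⟫_ℝ = lam j * (s / 2) := by
  obtain ⟨h1, h2, h3, h4, h5, h6, h7, h8, h9⟩ := inner_blk hb j
  simp only [vG, vR, inner_add_left, inner_add_right, inner_smul_left, h1, h4, h7, h9,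
    RCLike.conj_to_real]
  ring

lemma inner_KF (j : ℕ) : ⟪vK b lam j, vF b j⟫_ℝ = lam j * (s / 2) := by
  obtain ⟨h1, h2, h3, h4, h5, h6, h7, h8, h9⟩ := inner_blk hb j
  simp only [vK, vF, inner_sub_left, inner_sub_right, inner_smul_left, h1, h4, h7, h9,
    RCLike.conj_to_real]
  ring

lemma inner_KR (j : ℕ) : ⟪vK b lam j, vR b j⟫_ℝ = lam j * (s / 2) := by
  obtain ⟨h1, h2, h3, h4, h5, h6, h7, h8, h9⟩ := inner_blk hb j
  simp only [vK, vR, inner_sub_left, inner_add_right, inner_smul_left, h1, h4, h7, h9,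
    RCLike.conj_to_real]
  ring

lemma nice_qR (j : ℕ) : Nice b (qb M j) (qR b X M j) := by
  cases j
  · exact nice_r hb M
  · exact nice_R hb _

lemma nice_qF (j : ℕ) : Nice b (qb M j) (qF b X M j) := by
  cases j
  · exact nice_f hb M
  · exact nice_F hb _

lemma nice_qG (j : ℕ) : Nice b (qb M j) (qG b X lam M j) := by
  cases j
  · exact nice_r hb M
  · exact nice_G hb _

lemma nice_qK (j : ℕ) : Nice b (qb M j) (qK b X lam M j) := by
  cases j
  · exact nice_f hb M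
  · exact nice_K hb _

lemma nice_e (c : ℕ) : Nice b 0 (b (0, c)) := by
  have := nice_b hb 0 c (by norm_num)
  simpa using this

lemma e_perp {c d : ℕ} (h : c ≠ d) : ⟪b (0, c), b (0, d)⟫_ℝ = 0 := by
  rw [hb, if_neg (by simpa using h)]

/-- half sums -/
lemma unit1 {n m : ℕ} {x y : H} (hn : n ≠ 0) (hm : m ≠ 0) (hnm : n ≠ m) (hx : Nice b n x)
    (hy : Nice b m y) :
    ⟪(1 / 2 : ℝ) • (x - y + b (0, 0) + b (0, 1)), (1 / 2 : ℝ) • (x - y + b (0, 0) + b (0, 1))⟫_ℝ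
      = 1 := by
  have := unit_half (s := 1) (t := -1) (r := 1) (q := 1) (by norm_num) (by norm_num)
    (by norm_num) (by norm_num) hx.1 hy.1 (nice_e hb 0).1 (nice_e hb 1).1
    (InB.perp hb hnm hx.2 hy.2) (InB.perp hb hn hx.2 (nice_e hb 0).2)
    (InB.perp hb hn hx.2 (nice_e hb 1).2) (InB.perp hb hm hy.2 (nice_e hb 0).2)
    (InB.perp hb hm hy.2 (nice_e hb 1).2) (e_perp hb (by norm_num))
  simpa only [one_smul, neg_one_smul, ← sub_eq_add_neg] using this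

lemma unit2 {n m : ℕ} {x y : H} (hn : n ≠ 0) (hm : m ≠ 0) (hnm : n ≠ m) (hx : Nice b n x)
    (hy : Nice b m y) :
    ⟪(1 / 2 : ℝ) • (x + y - b (0, 0) + b (0, 2)), (1 / 2 : ℝ) • (x + y - b (0, 0) + b (0, 2))⟫_ℝ
      = 1 := by
  have := unit_half (s := 1) (t := 1) (r := -1) (q := 1) (by norm_num) (by norm_num)
    (by norm_num) (by norm_num) hx.1 hy.1 (nice_e hb 0).1 (nice_e hb 2).1
    (InB.perp hb hnm hx.2 hy.2) (InB.perp hb hn hx.2 (nice_e hb 0).2)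
    (InB.perp hb hn hx.2 (nice_e hb 2).2) (InB.perp hb hm hy.2 (nice_e hb 0).2)
    (InB.perp hb hm hy.2 (nice_e hb 2).2) (e_perp hb (by norm_num))
  simpa only [one_smul, neg_one_smul, ← sub_eq_add_neg] using this

lemma unit3 {n m : ℕ} {x y : H} (hn : n ≠ 0) (hm : m ≠ 0) (hnm : n ≠ m) (hx : Nice b n x)
    (hy : Nice b m y) :
    ⟪(1 / 2 : ℝ) • (x + y + b (0, 0) - b (0, 1)), (1 / 2 : ℝ) • (x + y + b (0, 0) - b (0, 1))⟫_ℝ
      = 1 := by
  have := unit_half (s := 1) (t := 1) (r := 1) (q := -1) (by norm_num) (by norm_num)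
    (by norm_num) (by norm_num) hx.1 hy.1 (nice_e hb 0).1 (nice_e hb 1).1
    (InB.perp hb hnm hx.2 hy.2) (InB.perp hb hn hx.2 (nice_e hb 0).2)
    (InB.perp hb hn hx.2 (nice_e hb 1).2) (InB.perp hb hm hy.2 (nice_e hb 0).2)
    (InB.perp hb hm hy.2 (nice_e hb 1).2) (e_perp hb (by norm_num))
  simpa only [one_smul, neg_one_smul, ← sub_eq_add_neg] using this

theorem uu_self (p : Nm) : ⟪uu b X lam M p, uu b X lam M p⟫_ℝ = 1 := by
  unfold uu
  split
  · exact (nice_e hb _).1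
  · exact b1_self hb _
  · exact vf_self hb _
  · exact vr_self hb _
  · exact (nice_v hb _).1
  · exact unit1 hb (n := bk (p.2.1 + 1)) (by simp [bk]) (bk_ne p.2.1) (bk_ne' p.2.1)
      (nice_f hb _) (nice_r hb _)
  · exact unit1 hb (n := bk (p.2.1 + 1)) (by simp [bk]) (bk_ne p.2.1) (bk_ne' p.2.1)
      (nice_r hb _) (nice_r hb _)
  · exact unit2 hb (by omega) (bk_ne p.2.1) (bk_ne' p.2.1) (nice_v hb _) (nice_f hb _)
  · exact (nice_R hb _).1
  · exact (nice_F hb _).1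
  · exact (nice_G hb _).1
  · exact (nice_K hb _).1
  · exact unit1 hb (by omega) (qb_ne M _) (qb_ne' M _) (nice_R hb _) (nice_qR hb _)
  · exact unit3 hb (by omega) (qb_ne M _) (qb_ne' M _) (nice_F hb _) (nice_qF hb _)
  · exact unit1 hb (by omega) (qb_ne M _) (qb_ne' M _) (nice_G hb _) (nice_qG hb _)
  · exact unit1 hb (by omega) (qb_ne M _) (qb_ne' M _) (nice_K hb _) (nice_qG hb _)
  · exact unit2 hb (by omega) (qb_ne M _) (qb_ne' M _) (nice_F hb _) (nice_qK hb _)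
  · exact unit2 hb (by omega) (qb_ne M _) (qb_ne' M _) (nice_R hb _) (nice_qK hb _)
  · exact (nice_e hb 0).1

end

end

end Pool.Agent.Helper95.ThetaGap
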