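import Mathlib
import Pool.Agent.Helper95.ThetaGap.CompV

/-!
# Existence of the vectors for the two chains
-/

open scoped InnerProductSpace

namespace Pool.Agent.Helper95.ThetaGap

open Pool.Agent.Helper92.Theta

section

variable {H : Type} [NormedAddCommGroup H] [InnerProductSpace ℝ H]
variable {b : ℕ × ℕ → H} {X lam : ℕ → ℝ} {M : ℕ} {s : ℝ}

section

variable (hb : ∀ k l, ⟪b k, b l⟫_ℝ = if k = l then wt X lam s k else 0)
include hb

lemma holds_oe_of_nice {p : Nm} {n : ℕ} (hn : n ≠ 0) (h : Nice b n (uu b X lam M p)) :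
    Holds (uu b X lam M) (oe p) := by
  rw [holds_oe]
  exact ⟨InB.perp hb hn h.2 (nice_e hb 0).2, InB.perp hb hn h.2 (nice_e hb 1).2,
    InB.perp hb hn h.2 (nice_e hb 2).2⟩

lemma uu_eC : Holds (uu b X lam M) eC := by
  rw [holds_eC]
  exact ⟨e_perp hb (c := 0) (d := 1) (by norm_num), e_perp hb (c := 0) (d := 2) (by norm_num),
    e_perp hb (c := 1) (d := 2) (by norm_num)⟩

lemma perp_of_nice {p' p q' q : Nm} {n m : ℕ} (hn : n ≠ 0) (hm : m ≠ 0) (hnm : n ≠ m)
    (h1 : Nice b n (uu b X lam M p')) (h2 : Nice b m (uu b X lam M p))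
    (h3 : Nice b n (uu b X lam M q')) (h4 : Nice b m (uu b X lam M q)) :
    Perp (uu b X lam M) p' p q' q :=
  { h1 := ⟨h1.1, holds_oe_of_nice hb hn h1⟩
    h2 := ⟨h2.1, holds_oe_of_nice hb hm h2⟩
    h3 := ⟨h3.1, holds_oe_of_nice hb hn h3⟩
    h4 := ⟨h4.1, holds_oe_of_nice hb hm h4⟩
    pp := InB.perp hb hnm h1.2 h2.2
    qq := InB.perp hb hnm h3.2 h4.2
    pq := InB.perp hb hnm h1.2 h4.2
    qp := InB.perp hb hnm h3.2 h2.2 }

lemma uu_base : Holds (uu b X lam M) gBase := by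
  unfold gBase
  rw [Holds.append, Holds.append, Holds.append]
  refine ⟨⟨⟨uu_eC hb, holds_oe_of_nice hb (bk_ne 0) (nice_r hb 0)⟩,
    holds_oe_of_nice hb (bk_ne 0) (nice_f hb 0)⟩, ?_⟩
  have p : ∀ c d : ℕ, c ≠ d → ⟪b (1, c), b (1, d)⟫_ℝ = 0 := fun c d h => b1_perp hb h
  have er : uu b X lam M (rn 0) = vr b X 0 := rfl
  have ef : uu b X lam M (fn 0) = vf b X 0 := rfl
  have eb : ∀ c, uu b X lam M (bn c) = b (1, c) := fun c => rfl
  unfold Holds
  simp only [List.forall_mem_cons, List.not_mem_nil, false_imp_iff, implies_true, and_true, er,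
    ef, eb, vr, vf, inner_add_left, inner_smul_left, RCLike.conj_to_real, b1_self hb,
    p 0 1 (by norm_num), p 0 2 (by norm_num), p 0 3 (by norm_num),
    p 0 4 (by norm_num), p 1 0 (by norm_num), p 1 2 (by norm_num), p 1 3 (by norm_num),
    p 1 4 (by norm_num), p 2 0 (by norm_num), p 2 1 (by norm_num), p 2 3 (by norm_num),
    p 2 4 (by norm_num), p 3 0 (by norm_num), p 3 1 (by norm_num), p 3 2 (by norm_num),
    p 3 4 (by norm_num), p 4 0 (by norm_num), p 4 1 (by norm_num), p 4 2 (by norm_num)]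
  norm_num

lemma uu_step (hX0 : X 0 = 1 / 4) (hX : ∀ i, X (i + 1) = 2 * X i ^ 2) (i : ℕ) :
    Holds (uu b X lam M) (gStep i) := by
  unfold gStep
  rw [Holds.append]
  have h0 : Nice b (2 * i + 2) (uu b X lam M (fn (i + 1))) := nice_f hb (i + 1)
  have h1 : Nice b (2 * i + 2) (uu b X lam M (rn (i + 1))) := nice_r hb (i + 1)
  have h2 : Nice b (2 * i + 2) (uu b X lam M (vn i)) := nice_v hb i
  have h3 : Nice b (bk i) (uu b X lam M (fn i)) := nice_f hb i
  have h4 : Nice b (bk i) (uu b X lam M (rn i)) := nice_r hb i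
  have he' : ∀ c, ⟪uu b X lam M (en c), uu b X lam M (en c)⟫_ℝ = 1 := fun c => (nice_e hb c).1
  constructor
  · refine rel_complete (uu_eC hb) he' (perp_of_nice hb (by omega) (bk_ne i) (bk_ne' i) h0 h4 h2
      h3) rfl rfl ?_
    change ⟪vf b X (i + 1), b (2, i)⟫_ℝ = 1 + ⟪vr b X i, vf b X i⟫_ℝ
    rw [inner_fv hb, inner_rf hb hX0 hX]
  · refine rel_complete (uu_eC hb) he' (perp_of_nice hb (by omega) (bk_ne i) (bk_ne' i) h1 h4 h2
      h3) rfl rfl ?_
    change ⟪vr b X (i + 1), b (2, i)⟫_ℝ = 1 + ⟪vr b X i, vf b X i⟫_ℝ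
    rw [inner_rv hb, inner_rf hb hX0 hX]

lemma uu_chain (hX0 : X 0 = 1 / 4) (hX : ∀ i, X (i + 1) = 2 * X i ^ 2) (M' : ℕ) :
    Holds (uu b X lam M) (gChain M') := by
  unfold gChain
  rw [Holds.append, Holds.flatMap]
  exact ⟨uu_base hb, fun i _ => uu_step hb hX0 hX i⟩

lemma uu_blk (hX0 : X 0 = 1 / 4) (hX : ∀ i, X (i + 1) = 2 * X i ^ 2) (hs : s = X M)
    (hl0 : lam 0 = 2) (j : ℕ) (hl : ∀ i, i + 1 = j → lam j = 2 * lam i ^ 2) :
    Holds (uu b X lam M) (hStep M j) := by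
  have eqR : ∀ j, uu b X lam M (pR M j) = qR b X M j := by intro j; cases j <;> rfl
  have eqF : ∀ j, uu b X lam M (pF M j) = qF b X M j := by intro j; cases j <;> rfl
  have eqG : ∀ j, uu b X lam M (pG M j) = qG b X lam M j := by intro j; cases j <;> rfl
  have eqK : ∀ j, uu b X lam M (pK M j) = qK b X lam M j := by intro j; cases j <;> rfl
  have hR : Nice b (2 * j + 3) (uu b X lam M (Rn j)) := nice_R hb j
  have hF : Nice b (2 * j + 3) (uu b X lam M (Fn j)) := nice_F hb j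
  have hG : Nice b (2 * j + 3) (uu b X lam M (Gn j)) := nice_G hb j
  have hK : Nice b (2 * j + 3) (uu b X lam M (Kn j)) := nice_K hb j
  have hpR : Nice b (qb M j) (uu b X lam M (pR M j)) := by rw [eqR]; exact nice_qR hb j
  have hpF : Nice b (qb M j) (uu b X lam M (pF M j)) := by rw [eqF]; exact nice_qF hb j
  have hpG : Nice b (qb M j) (uu b X lam M (pG M j)) := by rw [eqG]; exact nice_qG hb j
  have hpK : Nice b (qb M j) (uu b X lam M (pK M j)) := by rw [eqK]; exact nice_qK hb j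
  have he' : ∀ c, ⟪uu b X lam M (en c), uu b X lam M (en c)⟫_ℝ = 1 := fun c => (nice_e hb c).1
  have e0 : ∀ c, uu b X lam M (en c) = b (0, c) := fun c => rfl
  -- previous values
  have v1 : ⟪qR b X M j, qF b X M j⟫_ℝ = s - 1 := by
    cases j with
    | zero =>
      have := inner_rf hb hX0 hX M
      change ⟪vr b X M, vf b X M⟫_ℝ = s - 1
      rw [hs]; linarith
    | succ j => exact inner_RF hb j
  have v2 : 1 + ⟪qG b X lam M j, qK b X lam M j⟫_ℝ = lam j * (s / 2) := by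
    cases j with
    | zero =>
      have := inner_rf hb hX0 hX M
      change 1 + ⟪vr b X M, vf b X M⟫_ℝ = lam 0 * (s / 2)
      rw [this, hl0, hs]; ring
    | succ j =>
      change 1 + ⟪vG b lam j, vK b lam j⟫_ℝ = lam (j + 1) * (s / 2)
      rw [inner_GK hb, hl j rfl]; ring
  unfold hStep
  rw [Holds.append, Holds.append, Holds.append, Holds.append]
  refine ⟨⟨⟨⟨?_, ?_⟩, ?_⟩, ?_⟩, ?_⟩
  · refine cpy_complete (uu_eC hb) he' (perp_of_nice hb (by omega) (qb_ne M j) (qb_ne' M j) hR hpR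
      hF hpF) ?_ ?_ ?_
    · rw [eqR, e0, e0]; rfl
    · rw [eqF, e0, e0]; rfl
    · rw [eqR, eqF, v1]; exact inner_RF hb j
  · refine rel_complete (uu_eC hb) he' (perp_of_nice hb (by omega) (qb_ne M j) (qb_ne' M j) hG hpG
      hF hpK) ?_ ?_ ?_
    · rw [eqG, e0, e0]; rfl
    · rw [eqK, e0, e0]; rfl
    · rw [eqG, eqK, v2]; exact inner_GF hb j
  · refine rel_complete (uu_eC hb) he' (perp_of_nice hb (by omega) (qb_ne M j) (qb_ne' M j) hG hpG
      hR hpK) ?_ ?_ ?_
    · rw [eqG, e0, e0]; rfl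
    · rw [eqK, e0, e0]; rfl
    · rw [eqG, eqK, v2]; exact inner_GR hb j
  · refine rel_complete (uu_eC hb) he' (perp_of_nice hb (by omega) (qb_ne M j) (qb_ne' M j) hK hpG
      hF hpK) ?_ ?_ ?_
    · rw [eqG, e0, e0]; rfl
    · rw [eqK, e0, e0]; rfl
    · rw [eqG, eqK, v2]; exact inner_KF hb j
  · refine rel_complete (uu_eC hb) he' (perp_of_nice hb (by omega) (qb_ne M j) (qb_ne' M j) hK hpG
      hR hpK) ?_ ?_ ?_
    · rw [eqG, e0, e0]; rfl
    · rw [eqK, e0, e0]; rfl
    · rw [eqG, eqK, v2]; exact inner_KR hb j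

end

section Rational

variable (hXq : ∀ i, X i ∈ QQ) (hlq : ∀ j, lam j ∈ QQ)
include hXq hlq

lemma uu_rat (p : Nm) : Rat1 b (uu b X lam M p) := by
  have h2 : (1 / 2 : ℝ) ∈ QQ := by
    have := div_mem (one_mem QQ) (ofNat_mem_QQ 2); exact_mod_cast this
  have h1 : (1 : ℝ) ∈ QQ := one_mem QQ
  have h1' : (-1 : ℝ) ∈ QQ := neg_mem (one_mem QQ)
  have bb : ∀ k, Rat1 b (b k) := Rat1.basis b
  have rf : ∀ i, Rat1 b (vf b X i) := by
    intro i
    cases i with
    | zero => exact Rat1.smul h2 ((((bb _).smul h1').add ((bb _).smul h1')).add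
        ((bb _).smul h1') |>.add ((bb _).smul h1))
    | succ i => exact ((bb _).smul (hXq i)).add (bb _)
  have rr : ∀ i, Rat1 b (vr b X i) := by
    intro i
    cases i with
    | zero => exact Rat1.smul h2 ((((bb _).smul h1).add ((bb _).smul h1)).add
        ((bb _).smul h1) |>.add ((bb _).smul h1))
    | succ i => exact ((bb _).smul (hXq i)).sub (bb _)
  have rR : ∀ j, Rat1 b (vR b j) := fun j => (bb _).add (bb _)
  have rF : ∀ j, Rat1 b (vF b j) := fun j => (bb _).sub (bb _)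
  have rG : ∀ j, Rat1 b (vG b lam j) := fun j => ((bb _).smul (hlq j)).add (bb _)
  have rK : ∀ j, Rat1 b (vK b lam j) := fun j => ((bb _).smul (hlq j)).sub (bb _)
  have sR : ∀ j, Rat1 b (qR b X M j) := by
    intro j; cases j
    · exact rr M
    · exact rR _
  have sF : ∀ j, Rat1 b (qF b X M j) := by
    intro j; cases j
    · exact rf M
    · exact rF _
  have sG : ∀ j, Rat1 b (qG b X lam M j) := by
    intro j; cases j
    · exact rr M
    · exact rG _
  have sK : ∀ j, Rat1 b (qK b X lam M j) := by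
    intro j; cases j
    · exact rf M
    · exact rK _
  unfold uu
  split
  · exact bb _
  · exact bb _
  · exact rf _
  · exact rr _
  · exact bb _
  · exact Rat1.smul h2 ((((rf _).sub (rr _)).add (bb _)).add (bb _))
  · exact Rat1.smul h2 ((((rr _).sub (rr _)).add (bb _)).add (bb _))
  · exact Rat1.smul h2 ((((bb _).add (rf _)).sub (bb _)).add (bb _))
  · exact rR _
  · exact rF _
  · exact rG _
  · exact rK _
  · exact Rat1.smul h2 ((((rR _).sub (sR _)).add (bb _)).add (bb _))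
  · exact Rat1.smul h2 ((((rF _).add (sF _)).add (bb _)).sub (bb _))
  · exact Rat1.smul h2 ((((rG _).sub (sG _)).add (bb _)).add (bb _))
  · exact Rat1.smul h2 ((((rK _).sub (sG _)).add (bb _)).add (bb _))
  · exact Rat1.smul h2 ((((rF _).add (sK _)).sub (bb _)).add (bb _))
  · exact Rat1.smul h2 ((((rR _).add (sK _)).sub (bb _)).add (bb _))
  · exact bb _

end Rational

end

/-- The vectors for the two chains exist. -/
theorem exists_u (M N : ℕ) (hMN : N + 2 ≤ M) :
    ∃ (H : Type) (_ : NormedAddCommGroup H) (_ : InnerProductSpace ℝ H) (u : Nm → H),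
      (∀ p, ⟪u p, u p⟫_ℝ = 1) ∧ Holds u (hChain M N) ∧
      1 + ⟪u (rn M), u (fn M)⟫_ℝ = (1 / 2) ^ 2 ^ M / 2 ∧ ∀ p q, ⟪u p, u q⟫_ℝ ∈ QQ := by
  set X : ℕ → ℝ := fun i => (1 / 2) ^ 2 ^ i / 2 with hX
  set lam : ℕ → ℝ := fun j => if j ≤ N then 4 ^ 2 ^ j / 2 else 0 with hlam
  set s : ℝ := X M with hs
  have hX0 : X 0 = 1 / 4 := by simp only [hX]; norm_num
  have hXs : ∀ i, X (i + 1) = 2 * X i ^ 2 := by
    intro i
    simp only [hX]
    rw [pow_succ 2 i, pow_mul]
    ring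
  have hXpos : ∀ i, 0 < X i := by intro i; simp only [hX]; positivity
  have hXle : ∀ i, X i ≤ 1 := by
    intro i
    simp only [hX]
    have : ((1 : ℝ) / 2) ^ 2 ^ i ≤ 1 := pow_le_one₀ (by norm_num) (by norm_num)
    linarith
  have hls : ∀ j, lam j ^ 2 * s ≤ 2 := by
    intro j
    simp only [hlam]
    split_ifs with h
    · have e1 : ((4 : ℝ) ^ 2 ^ j / 2) ^ 2 * s = (2 : ℝ) ^ 2 ^ (j + 2) * (1 / 2) ^ 2 ^ M / 8 := by
        have : (4 : ℝ) = 2 ^ 2 := by norm_num
        rw [hs, this, ← pow_mul, div_pow, ← pow_mul]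
        have e2 : 2 * 2 ^ j * 2 = 2 ^ (j + 2) := by ring
        rw [e2]
        simp only [hX]
        ring
      rw [e1]
      have e3 : (2 : ℝ) ^ 2 ^ (j + 2) * (1 / 2) ^ 2 ^ M ≤ 1 := by
        have e4 : (2 : ℝ) ^ 2 ^ (j + 2) ≤ 2 ^ 2 ^ M :=
          pow_le_pow_right₀ (by norm_num) (Nat.pow_le_pow_right (by norm_num) (by omega))
        calc _ ≤ (2 : ℝ) ^ 2 ^ M * (1 / 2) ^ 2 ^ M :=
              mul_le_mul_of_nonneg_right e4 (by positivity)
          _ = 1 := by rw [← mul_pow]; norm_num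
      linarith
    · norm_num
  have hw : ∀ k, 0 ≤ wt X lam s k := by
    intro k
    unfold wt
    split_ifs
    · have h1 := hXpos k.2
      have h2 := hXle k.2
      nlinarith
    · have := hXpos M
      rw [hs]; linarith
    · have := hXle M
      rw [hs]; linarith
    · have := hls k.2
      linarith
    · norm_num
  obtain ⟨H, _, _, b, hb⟩ := exists_orth (wt X lam s) hw
  have hn : ∀ n : ℕ, (n : ℝ) ∈ QQ := ofNat_mem_QQ
  have h2 : (1 / 2 : ℝ) ∈ QQ := by
    have := div_mem (one_mem QQ) (hn 2); exact_mod_cast this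
  have hXq : ∀ i, X i ∈ QQ := by
    intro i
    have h3 : X i = (1 / 2) ^ 2 ^ i * (1 / 2) := by simp only [hX]; ring
    rw [h3]
    exact mul_mem (pow_mem h2 _) h2
  have hlq : ∀ j, lam j ∈ QQ := by
    intro j
    simp only [hlam]
    split_ifs
    · have h3 : (4 : ℝ) ^ 2 ^ j / 2 = ((4 : ℕ) : ℝ) ^ 2 ^ j * (1 / 2) := by push_cast; ring
      rw [h3]
      exact mul_mem (pow_mem (hn 4) _) h2
    · exact zero_mem _
  have hwq : ∀ k, wt X lam s k ∈ QQ := by
    intro k
    unfold wt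
    split_ifs
    · exact sub_mem (one_mem _) (pow_mem (hXq _) _)
    · have h3 : s / 2 = s * (1 / 2) := by ring
      rw [h3]; exact mul_mem (hXq M) h2
    · have h3 : s / 2 = s * (1 / 2) := by ring
      rw [h3]; exact sub_mem (one_mem _) (mul_mem (hXq M) h2)
    · have h3 : s / 2 = s * (1 / 2) := by ring
      rw [h3]; exact sub_mem (one_mem _) (mul_mem (pow_mem (hlq _) _) (mul_mem (hXq M) h2))
    · exact one_mem _
  refine ⟨H, inferInstance, inferInstance, uu b X lam M, uu_self hb, ?_, ?_, ?_⟩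
  · unfold hChain
    rw [Holds.append, Holds.flatMap]
    refine ⟨uu_chain hb hX0 hXs M, fun j hj => ?_⟩
    have hj' : j ≤ N := by
      have := List.mem_range.1 hj
      omega
    refine uu_blk hb hX0 hXs hs (by simp only [hlam]; norm_num) j ?_
    rintro i rfl
    simp only [hlam]
    rw [if_pos hj', if_pos (by omega), pow_succ 2 i, pow_mul]
    ring
  · exact inner_rf hb hX0 hXs M
  · intro p q
    exact Rat1.inner hb hwq (uu_rat hXq hlq p) (uu_rat hXq hlq q)

end Pool.Agent.Helper95.ThetaGap
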