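import Mathlib
import Pool.Agent.Helper92.Theta.Gad

/-!
# Nearly feasible matrices give feasible matrices for a slightly smaller vector
-/

open scoped InnerProductSpace

namespace Pool.Agent.Helper95.ThetaGap

open Pool.Agent.Helper92.Theta

theorem dd_psd {ι : Type} [Fintype ι] [DecidableEq ι] (N : Matrix ι ι ℝ)
    (hN : ∀ i j, N i j = N j i) (η : ℝ) (h : ∀ i j, |N i j| ≤ η) (e : ℝ)
    (he : Fintype.card ι * η ≤ e) : (e • (1 : Matrix ι ι ℝ) - N).PosSemidef := by
  refine Matrix.PosSemidef.of_dotProduct_mulVec_nonneg ?_ fun x => ?_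
  · ext i j
    simp only [Matrix.conjTranspose_apply, Matrix.sub_apply, Matrix.smul_apply, Matrix.one_apply,
      star_trivial, hN j i]
    by_cases hij : i = j
    · subst hij; rfl
    · rw [if_neg hij, if_neg (Ne.symm hij)]
  · have e1 : star x ⬝ᵥ Matrix.mulVec (e • (1 : Matrix ι ι ℝ) - N) x =
        e * ∑ i, x i ^ 2 - ∑ i, ∑ j, N i j * (x i * x j) := by
      rw [Matrix.sub_mulVec, dotProduct_sub, Matrix.smul_mulVec, Matrix.one_mulVec,
        dotProduct_smul]
      simp only [dotProduct, Matrix.mulVec, Pi.star_apply, star_trivial, smul_eq_mul,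
        Finset.mul_sum]
      congr 1
      · refine Finset.sum_congr rfl fun i _ => by ring
      · refine Finset.sum_congr rfl fun i _ => Finset.sum_congr rfl fun j _ => by ring
    rw [e1]
    have e2 : ∑ i, ∑ j, N i j * (x i * x j) ≤ ∑ i, ∑ j, η / 2 * (x i ^ 2 + x j ^ 2) := by
      refine Finset.sum_le_sum fun i _ => Finset.sum_le_sum fun j _ => ?_
      have h1 := abs_le.1 (h i j)
      have hη : 0 ≤ η := (abs_nonneg _).trans (h i j)
      rcases le_total 0 (x i * x j) with h2 | h2
      · nlinarith [mul_le_mul_of_nonneg_right h1.2 h2, mul_nonneg hη (sq_nonneg (x i - x j))]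
      · nlinarith [mul_le_mul_of_nonneg_right h1.1 (neg_nonneg.2 h2),
          mul_nonneg hη (sq_nonneg (x i + x j))]
    have e3 : ∑ i, ∑ j, η / 2 * (x i ^ 2 + x j ^ 2) = Fintype.card ι * η * ∑ i, x i ^ 2 := by
      simp only [mul_add, Finset.sum_add_distrib, Finset.sum_const, Finset.card_univ,
        nsmul_eq_mul, ← Finset.mul_sum]
      ring
    have e4 : 0 ≤ ∑ i, x i ^ 2 := Finset.sum_nonneg fun i _ => sq_nonneg _
    have e5 := mul_le_mul_of_nonneg_right he e4
    linarith

/-- A matrix that is feasible up to small errors on the edges gives a vector of the theta body. -/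
theorem robust {V : Type} [Fintype V] (G : SimpleGraph V)
    (Y : Matrix (Option V) (Option V) ℝ) (hY : Y.PosSemidef) (h0 : Y none none = 1)
    (h1 : ∀ i, Y none (some i) = 1 / 8 ∧ Y (some i) (some i) = 1 / 8) (η : ℝ)
    (h2 : ∀ i j, G.Adj i j → |Y (some i) (some j)| ≤ η) (hη : 0 ≤ η) (t : ℝ) (ht : 0 < t)
    (hle : 8 * t * (Fintype.card V * η) ≤ 1 - t) : (fun _ => t / 8) ∈ TH G := by
  classical
  have hsym : ∀ a b, Y a b = Y b a := by
    intro a b
    have := congrFun (congrFun hY.1 b) a
    simpa [Matrix.conjTranspose_apply] using this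
  set N : Matrix V V ℝ := Matrix.of fun i j => if G.Adj i j then Y (some i) (some j) else 0 with hN
  have hE := dd_psd N (fun i j => by
    simp only [hN, Matrix.of_apply, G.adj_comm i j, hsym (some i) (some j)]) η (fun i j => by
      simp only [hN, Matrix.of_apply]
      split_ifs with h
      · exact h2 i j h
      · rw [abs_zero]; exact hη) ((1 - t) / (8 * t)) (by
      rw [le_div_iff₀ (by positivity)]
      linarith)
  obtain ⟨m, y, hy⟩ := exists_vectors hY
  obtain ⟨m', g, hg⟩ := exists_vectors hE
  refine (th_iff G _).2 ⟨WithLp 2 (EuclideanSpace ℝ (Fin m) × EuclideanSpace ℝ (Fin m')),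
    inferInstance, inferInstance, WithLp.toLp 2 (y none, 0),
    fun i => WithLp.toLp 2 (t • y (some i), t • g i), ?_, fun i => ⟨?_, ?_⟩, fun i j hij => ?_⟩
  · rw [WithLp.prod_inner_apply]
    simp only [hy, h0, inner_zero_left, add_zero]
  · rw [WithLp.prod_inner_apply]
    simp only [inner_smul_right, hy, (h1 i).1, inner_zero_left, add_zero]
    ring
  · rw [WithLp.prod_inner_apply]
    simp only [inner_smul_right, inner_smul_left, hy, (h1 i).2, hg, RCLike.conj_to_real]
    simp only [hN, Matrix.sub_apply, Matrix.smul_apply, Matrix.one_apply_eq, Matrix.of_apply,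
      G.irrefl, if_false, smul_eq_mul]
    field_simp
    ring
  · rw [WithLp.prod_inner_apply]
    simp only [inner_smul_right, inner_smul_left, hy, hg, RCLike.conj_to_real]
    simp only [hN, Matrix.sub_apply, Matrix.smul_apply, Matrix.one_apply_ne hij.ne,
      Matrix.of_apply, if_pos hij, smul_eq_mul]
    ring

end Pool.Agent.Helper95.ThetaGap
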