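import Mathlib
import Pool.Agent.Helper95.ThetaGap.Blow2

/-!
# From a feasible matrix to unit vectors
-/

open scoped InnerProductSpace

namespace Pool.Agent.Helper95.ThetaGap

open Pool.Agent.Helper92.Theta

/-- The name occurs in a constraint. -/
def Occ (C : List Cst) (p : Nm) : Prop := ∃ c ∈ C, p = c.1 ∨ p = c.2.1

/-- From vectors of the graph to unit vectors, explicitly. -/
theorem units_of_z (C : List Cst) (hC : ∀ c ∈ C, c.2.2 ≤ 4) {H : Type} [NormedAddCommGroup H]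
    [InnerProductSpace ℝ H] (y₀ : H) (z : VN → H) (h0 : ⟪y₀, y₀⟫_ℝ = 1)
    (h1 : ∀ x ∈ vlist C, ⟪y₀, z x⟫_ℝ = 1 / 8 ∧ ⟪z x, z x⟫_ℝ = 1 / 8)
    (h2 : ∀ x ∈ vlist C, ∀ x' ∈ vlist C, vadj x x' → ⟪z x, z x'⟫_ℝ = 0) :
    ∃ u : Nm → H, (∀ p, ⟪u p, u p⟫_ℝ = 1) ∧
      (∀ c ∈ C, ⟪u c.1, u c.2.1⟫_ℝ = (c.2.2 : ℝ) / 2 - 1) ∧
      ∀ p, Occ C p → u p = (2 : ℝ) • ∑ i : Fin 4, z (uv p true i) - y₀ := by
  -- the names that occur
  set occ : Nm → Prop := fun p => ∀ s i, i < 4 → uv p s i ∈ vlist C with hocc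
  have hocc1 : ∀ c ∈ C, occ c.1 := by
    intro c hc s i hi
    rw [mem_vlist]
    refine ⟨c, hc, i, hi, ?_⟩
    cases s <;> simp
  have hocc2 : ∀ c ∈ C, occ c.2.1 := by
    intro c hc s i hi
    rw [mem_vlist]
    refine ⟨c, hc, i, hi, ?_⟩
    cases s <;> simp
  have hcv : ∀ c ∈ C, ∀ j < 4, cv c j ∈ vlist C := by
    intro c hc j hj
    rw [mem_vlist]
    exact ⟨c, hc, j, hj, Or.inl rfl⟩
  -- the halves
  set A : Nm → Bool → H := fun p s => ∑ i : Fin 4, z (uv p s i) with hA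
  have hAsum : ∀ p, occ p → A p true + A p false = y₀ := by
    intro p hp
    have := clique_sum (ι := Fin 4 ⊕ Fin 4) (by simp) (fun x => match x with
      | .inl i => z (uv p true i)
      | .inr i => z (uv p false i)) y₀ h0 ?_ ?_ ?_
    · rw [Fintype.sum_sum_type] at this
      exact this
    · rintro (i | i)
      · exact (h1 _ (hp _ _ i.2)).1
      · exact (h1 _ (hp _ _ i.2)).1
    · rintro (i | i)
      · exact (h1 _ (hp _ _ i.2)).2
      · exact (h1 _ (hp _ _ i.2)).2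
    · rintro (i | i) (j | j) hij
      · refine h2 _ (hp _ _ i.2) _ (hp _ _ j.2) (Or.inl (Or.inl ⟨rfl, rfl, rfl, ?_⟩))
        intro h; apply hij
        simp only [uv, Prod.mk.injEq, true_and] at h
        rw [Fin.ext h]
      · exact h2 _ (hp _ _ i.2) _ (hp _ _ j.2) (Or.inl (Or.inl ⟨rfl, rfl, rfl, by simp [uv]⟩))
      · exact h2 _ (hp _ _ i.2) _ (hp _ _ j.2) (Or.inl (Or.inl ⟨rfl, rfl, rfl, by simp [uv]⟩))
      · refine h2 _ (hp _ _ i.2) _ (hp _ _ j.2) (Or.inl (Or.inl ⟨rfl, rfl, rfl, ?_⟩))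
        intro h; apply hij
        simp only [uv, Prod.mk.injEq, true_and] at h
        rw [Fin.ext h]
  have hAy : ∀ p, occ p → ∀ s, ⟪y₀, A p s⟫_ℝ = 1 / 2 := by
    intro p hp s
    rw [hA, inner_sum, Finset.sum_congr rfl (fun (i : Fin 4) _ => (h1 _ (hp s i i.2)).1)]
    norm_num
  have hAA : ∀ p, occ p → ⟪A p true, A p true⟫_ℝ = 1 / 2 := by
    intro p hp
    conv_lhs => rw [hA]
    simp only
    rw [sum_inner, Finset.sum_congr rfl (g := fun _ => (1 / 8 : ℝ))]
    · norm_num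
    · intro i _
      rw [inner_sum, Finset.sum_eq_single i]
      · exact (h1 _ (hp true i i.2)).2
      · intro j _ hj
        refine h2 _ (hp _ _ i.2) _ (hp _ _ j.2) (Or.inl (Or.inl ⟨rfl, rfl, rfl, ?_⟩))
        intro h; apply hj
        simp only [uv, Prod.mk.injEq, true_and] at h
        rw [Fin.ext h]
      · intro h; exact absurd (Finset.mem_univ i) h
  have hcsum : ∀ c ∈ C, A c.1 true + ∑ j : Fin 4, z (cv c j) = y₀ := by
    intro c hc
    have := clique_sum (ι := Fin 4 ⊕ Fin 4) (by simp) (fun x => match x with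
      | .inl i => z (uv c.1 true i)
      | .inr i => z (cv c i)) y₀ h0 ?_ ?_ ?_
    · rw [Fintype.sum_sum_type] at this
      exact this
    · rintro (i | i)
      · exact (h1 _ (hocc1 c hc _ _ i.2)).1
      · exact (h1 _ (hcv c hc _ i.2)).1
    · rintro (i | i)
      · exact (h1 _ (hocc1 c hc _ _ i.2)).2
      · exact (h1 _ (hcv c hc _ i.2)).2
    · rintro (i | i) (j | j) hij
      · refine h2 _ (hocc1 c hc _ _ i.2) _ (hocc1 c hc _ _ j.2)
          (Or.inl (Or.inl ⟨rfl, rfl, rfl, ?_⟩))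
        intro h; apply hij
        simp only [uv, Prod.mk.injEq, true_and] at h
        rw [Fin.ext h]
      · exact h2 _ (hocc1 c hc _ _ i.2) _ (hcv c hc _ j.2)
          (Or.inr (Or.inr (Or.inr ⟨rfl, rfl, Or.inl ⟨rfl, rfl⟩⟩)))
      · exact h2 _ (hcv c hc _ i.2) _ (hocc1 c hc _ _ j.2)
          (Or.inl (Or.inr (Or.inr ⟨rfl, rfl, Or.inl ⟨rfl, rfl⟩⟩)))
      · refine h2 _ (hcv c hc _ i.2) _ (hcv c hc _ j.2)
          (Or.inl (Or.inr (Or.inl ⟨rfl, rfl, rfl, ?_⟩)))
        intro h; apply hij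
        simp only [cv, Prod.mk.injEq, true_and] at h
        rw [Fin.ext h]
  -- the key computation
  have key : ∀ c ∈ C, ⟪A c.1 true, A c.2.1 true⟫_ℝ = (c.2.2 : ℝ) / 8 := by
    intro c hc
    have ht := hC c hc
    have e1 : A c.1 false = ∑ j : Fin 4, z (cv c j) := by
      have ha := hAsum _ (hocc1 c hc)
      have hb := hcsum c hc
      rw [← hb] at ha
      exact add_left_cancel ha
    have e2 : ∀ j : Fin 4, ⟪z (cv c j), A c.2.1 false⟫_ℝ = if (j : ℕ) < c.2.2 then 1 / 8 else 0 := by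
      intro j
      have hperp : ∀ s, s = decide ((j : ℕ) < c.2.2) → ⟪z (cv c j), A c.2.1 s⟫_ℝ = 0 := by
        intro s hs
        rw [hA, inner_sum]
        refine Finset.sum_eq_zero fun i _ => ?_
        exact h2 _ (hcv c hc _ j.2) _ (hocc2 c hc _ _ i.2)
          (Or.inl (Or.inr (Or.inr ⟨rfl, rfl, Or.inr ⟨rfl, hs⟩⟩)))
      by_cases hj : (j : ℕ) < c.2.2
      · rw [if_pos hj]
        have h3 := hperp true (by simp [hj])
        have h4 : A c.2.1 false = y₀ - A c.2.1 true := by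
          rw [← hAsum _ (hocc2 c hc)]; abel
        rw [h4, inner_sub_right, h3, real_inner_comm, (h1 _ (hcv c hc _ j.2)).1]
        ring
      · rw [if_neg hj]
        exact hperp false (by simp [hj])
    have e3 : ⟪A c.1 false, A c.2.1 false⟫_ℝ = (c.2.2 : ℝ) / 8 := by
      rw [e1, sum_inner, Finset.sum_congr rfl (fun j _ => e2 j)]
      have : ∀ t : ℕ, t ≤ 4 → (∑ j : Fin 4, if (j : ℕ) < t then (1 / 8 : ℝ) else 0) = t / 8 := by
        intro t ht
        interval_cases t <;> simp [Fin.sum_univ_four] <;> norm_num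
      exact this _ ht
    have e4 : A c.1 true = y₀ - A c.1 false := by
      rw [← hAsum _ (hocc1 c hc)]; abel
    have e5 : A c.2.1 true = y₀ - A c.2.1 false := by
      rw [← hAsum _ (hocc2 c hc)]; abel
    have e6 := hAy _ (hocc1 c hc) false
    have e7 := hAy _ (hocc2 c hc) false
    rw [e4, e5, inner_sub_left, inner_sub_right, inner_sub_right, h0, e3, e7,
      real_inner_comm, e6]
    ring
  classical
  refine ⟨fun p => if occ p then (2 : ℝ) • A p true - y₀ else y₀, ?_, ?_, ?_⟩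
  · intro p
    by_cases hp : occ p
    · simp only [if_pos hp]
      have e1 := hAA p hp
      have e2 := hAy p hp true
      have e3 : ⟪A p true, y₀⟫_ℝ = 1 / 2 := by rw [real_inner_comm]; exact e2
      simp only [inner_sub_left, inner_sub_right, inner_smul_left, inner_smul_right, e1, e2, e3,
        h0, RCLike.conj_to_real]
      norm_num
    · simp only [if_neg hp]; exact h0
  · intro c hc
    simp only [if_pos (hocc1 c hc), if_pos (hocc2 c hc)]
    have e1 := key c hc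
    have e2 := hAy _ (hocc2 c hc) true
    have e3 : ⟪A c.1 true, y₀⟫_ℝ = 1 / 2 := by
      rw [real_inner_comm]; exact hAy _ (hocc1 c hc) true
    simp only [inner_sub_left, inner_sub_right, inner_smul_left, inner_smul_right, e1, e2, e3,
      h0, RCLike.conj_to_real]
    ring
  · rintro p ⟨c, hc, rfl | rfl⟩
    · simp only [if_pos (hocc1 c hc)]; rfl
    · simp only [if_pos (hocc2 c hc)]; rfl

/-- From a feasible matrix to unit vectors. -/
theorem sound2 (C : List Cst) (hC : ∀ c ∈ C, c.2.2 ≤ 4)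
    (Y : Matrix (Option (Fin (gadget C).1)) (Option (Fin (gadget C).1)) ℝ) (hY : Y.PosSemidef)
    (hY0 : Y none none = 1)
    (hY1 : ∀ i, Y none (some i) = 1 / 8 ∧ Y (some i) (some i) = 1 / 8)
    (hY2 : ∀ i j, (graphOf (gadget C).1 (gadget C).2).Adj i j → Y (some i) (some j) = 0) :
    ∃ (H : Type) (_ : NormedAddCommGroup H) (_ : InnerProductSpace ℝ H) (u : Nm → H),
      (∀ p, ⟪u p, u p⟫_ℝ = 1) ∧ (∀ c ∈ C, ⟪u c.1, u c.2.1⟫_ℝ = (c.2.2 : ℝ) / 2 - 1) ∧
      ∀ p q, Occ C p → Occ C q → ∀ D : ℝ, (∀ a b, ∃ k : ℤ, D * Y a b = k) →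
        ∃ k : ℤ, D * (1 + ⟪u p, u q⟫_ℝ) = k := by
  obtain ⟨m, y, hy⟩ := exists_vectors hY
  set L := vlist C with hL
  have hidx : ∀ x ∈ L, L.idxOf x < (gadget C).1 := fun x hx => List.idxOf_lt_length_iff.2 hx
  set z : VN → EuclideanSpace ℝ (Fin m) :=
    fun x => if h : L.idxOf x < (gadget C).1 then y (some ⟨L.idxOf x, h⟩) else 0 with hz
  have h0 : ⟪y none, y none⟫_ℝ = 1 := by rw [hy, hY0]
  have h1 : ∀ x ∈ vlist C, ⟪y none, z x⟫_ℝ = 1 / 8 ∧ ⟪z x, z x⟫_ℝ = 1 / 8 := by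
    intro x hx
    simp only [hz, dif_pos (hidx x hx)]
    rw [hy, hy]
    exact hY1 _
  have h2 : ∀ x ∈ vlist C, ∀ x' ∈ vlist C, vadj x x' → ⟪z x, z x'⟫_ℝ = 0 := by
    intro x hx x' hx' hadj
    have h := hidx x hx
    have h' := hidx x' hx'
    simp only [hz, dif_pos h, dif_pos h']
    rw [hy]
    refine hY2 _ _ ⟨?_, Or.inl ?_⟩
    · intro heq
      have h3 : L.idxOf x = L.idxOf x' := congrArg Fin.val heq
      have h4 : x = x' := (List.idxOf_inj hx).1 h3
      subst h4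
      exact vadj_irrefl x hadj
    · have h5 := (mem_edges L ⟨L.idxOf x, h⟩ ⟨L.idxOf x', h'⟩).2 (by
        simpa using hadj)
      exact h5
  obtain ⟨u, hu, hu1, hu2⟩ := units_of_z C hC (y none) z h0 h1 h2
  refine ⟨_, inferInstance, inferInstance, u, hu, hu1, fun p q hp hq D hD => ?_⟩
  have occ : ∀ p, Occ C p → ∀ i < 4, uv p true i ∈ vlist C := by
    rintro p ⟨c, hc, rfl | rfl⟩ i hi <;>
    · rw [mem_vlist]
      exact ⟨c, hc, i, hi, by simp⟩
  have hA : ∀ p, Occ C p → ⟪y none, ∑ i : Fin 4, z (uv p true i)⟫_ℝ = 1 / 2 := by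
    intro p hp
    rw [inner_sum, Finset.sum_congr rfl (fun (i : Fin 4) _ => (h1 _ (occ p hp i i.2)).1)]
    norm_num
  have hA' : ⟪∑ i : Fin 4, z (uv p true i), y none⟫_ℝ = 1 / 2 := by
    rw [real_inner_comm]; exact hA p hp
  have hzz : ∀ i j : Fin 4, ∃ k : ℤ, D * ⟪z (uv p true i), z (uv q true j)⟫_ℝ = k := by
    intro i j
    simp only [hz, dif_pos (hidx _ (occ p hp i i.2)), dif_pos (hidx _ (occ q hq j j.2))]
    rw [hy]
    exact hD _ _
  choose k hk using hzz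
  refine ⟨4 * ∑ i : Fin 4, ∑ j : Fin 4, k i j, ?_⟩
  rw [hu2 p hp, hu2 q hq]
  rw [inner_sub_left, inner_sub_right, inner_sub_right, inner_smul_left, inner_smul_left,
    inner_smul_right, inner_smul_right, hA q hq, hA', h0]
  rw [sum_inner]
  simp only [inner_sum, RCLike.conj_to_real]
  push_cast
  simp only [← hk, ← Finset.mul_sum]
  ring

end Pool.Agent.Helper95.ThetaGap
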