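import Mathlib
import Pool.Agent.Helper95.ThetaGap.CompW
import Pool.Agent.Helper95.ThetaGap.Robust
import Pool.Agent.Helper95.ThetaGap.Sound2

/-!
# Doubly exponentially small gaps and large certificates
-/

open scoped InnerProductSpace

namespace Pool.Agent.Helper95.ThetaGap

open Pool.Agent.Helper92.Theta

/-! ### Sizes -/

lemma length_relC (S T p' p q' q : Nm) : (relC S T p' p q' q).length = 25 := rfl

lemma length_cpyC (S T p' p q' q : Nm) : (cpyC S T p' p q' q).length = 25 := rfl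

lemma length_gStep (i : ℕ) : (gStep i).length = 50 := rfl

lemma length_hStep (M j : ℕ) : (hStep M j).length = 125 := rfl

lemma length_gBase : gBase.length = 27 := rfl

lemma length_gChain (M : ℕ) : (gChain M).length = 27 + 50 * M := by
  unfold gChain
  rw [List.length_append, length_gBase, List.length_flatMap]
  simp only [length_gStep, List.map_const', List.length_range, List.sum_replicate, smul_eq_mul]
  ring

lemma length_hChain (M N : ℕ) : (hChain M N).length = 27 + 50 * M + 125 * (N + 1) := by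
  unfold hChain
  rw [List.length_append, length_gChain, List.length_flatMap]
  simp only [length_hStep, List.map_const', List.length_range, List.sum_replicate, smul_eq_mul]
  ring

lemma length_vlist (C : List Cst) : (vlist C).length = 20 * C.length := by
  unfold vlist
  rw [List.length_flatMap]
  have h : ∀ c : Cst, ((List.range 4).flatMap fun i =>
    [cv c i, uv c.1 true i, uv c.1 false i, uv c.2.1 true i, uv c.2.1 false i]).length = 20 :=
    fun c => rfl
  simp only [h, List.map_const', List.sum_replicate, smul_eq_mul]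
  ring

/-! ### The exponents `t` -/

lemma le_four_of_mem_relC {S T p' p q' q : Nm} : ∀ c ∈ relC S T p' p q' q, c.2.2 ≤ 4 := by
  unfold relC oe
  simp only [List.cons_append, List.nil_append, List.forall_mem_cons, List.not_mem_nil,
    false_imp_iff, implies_true, and_true]
  norm_num

lemma le_four_of_mem_cpyC {S T p' p q' q : Nm} : ∀ c ∈ cpyC S T p' p q' q, c.2.2 ≤ 4 := by
  unfold cpyC oe
  simp only [List.cons_append, List.nil_append, List.forall_mem_cons, List.not_mem_nil,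
    false_imp_iff, implies_true, and_true]
  norm_num

lemma le_four_of_mem_gChain (M : ℕ) : ∀ c ∈ gChain M, c.2.2 ≤ 4 := by
  unfold gChain
  rw [List.forall_mem_append]
  constructor
  · unfold gBase eC oe
    simp only [List.cons_append, List.nil_append, List.forall_mem_cons, List.not_mem_nil,
      false_imp_iff, implies_true, and_true]
    norm_num
  · intro c hc
    obtain ⟨i, -, hc⟩ := List.mem_flatMap.1 hc
    unfold gStep at hc
    rcases List.mem_append.1 hc with h | h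
    · exact le_four_of_mem_relC c h
    · exact le_four_of_mem_relC c h

lemma le_four_of_mem_hChain (M N : ℕ) : ∀ c ∈ hChain M N, c.2.2 ≤ 4 := by
  unfold hChain
  rw [List.forall_mem_append]
  refine ⟨le_four_of_mem_gChain M, ?_⟩
  intro c hc
  obtain ⟨i, -, hc⟩ := List.mem_flatMap.1 hc
  unfold hStep at hc
  simp only [List.mem_append] at hc
  rcases hc with (((h | h) | h) | h) | h
  · exact le_four_of_mem_cpyC c h
  · exact le_four_of_mem_relC c h
  · exact le_four_of_mem_relC c h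
  · exact le_four_of_mem_relC c h
  · exact le_four_of_mem_relC c h

/-! ### The graphs of the first kind -/

/-- the last constraint -/
def lastC (M : ℕ) : Cst := (rn M, fn M, 0)

/-- The constraints of the graphs which just miss the point. -/
def nearC (N : ℕ) : List Cst := lastC (N + 4) :: gChain (N + 4)

lemma le_four_of_mem_nearC (N : ℕ) : ∀ c ∈ nearC N, c.2.2 ≤ 4 := by
  unfold nearC
  rw [List.forall_mem_cons]
  exact ⟨by simp [lastC], le_four_of_mem_gChain _⟩

lemma card_near (N : ℕ) : (gadget (nearC N)).1 = 4560 + 1000 * N := by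
  change (vlist (nearC N)).length = _
  rw [length_vlist]
  unfold nearC
  rw [List.length_cons, length_gChain]
  ring

theorem near_not_mem (N : ℕ) :
    (fun _ => 1 / 8) ∉ TH (graphOf (gadget (nearC N)).1 (gadget (nearC N)).2) := by
  intro h
  obtain ⟨H, _, _, u, hu, hC⟩ := gsat_of_gadget (nearC N) (le_four_of_mem_nearC N) h
  unfold nearC at hC
  rw [List.forall_mem_cons] at hC
  have h1 := chain_pos hu hC.2 (N + 4) le_rfl
  have h2 := hC.1
  simp only [lastC] at h2
  rw [h2] at h1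
  norm_num at h1

lemma near_num (N : ℕ) : 8 * ((4560 + 1000 * N : ℕ) : ℝ) * ((1 / 2) ^ 2 ^ (N + 4) / 2) ≤
    (1 / 2) ^ 2 ^ N := by
  have h1 : 4 * (4560 + 1000 * N) ≤ 2 ^ (15 * 2 ^ N) := by
    have h2 : N + 1 ≤ 2 ^ N := Nat.lt_two_pow_self
    have h3 : 15 + N ≤ 15 * 2 ^ N := by omega
    calc 4 * (4560 + 1000 * N) ≤ 32768 * (N + 1) := by omega
      _ ≤ 32768 * 2 ^ N := Nat.mul_le_mul_left _ h2
      _ = 2 ^ (15 + N) := by rw [pow_add]; norm_num
      _ ≤ 2 ^ (15 * 2 ^ N) := Nat.pow_le_pow_right (by norm_num) h3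
  have h4 : (4 * (4560 + 1000 * N : ℕ) : ℝ) ≤ 2 ^ (15 * 2 ^ N) := by exact_mod_cast h1
  have h5 : (2 : ℝ) ^ (15 * 2 ^ N) * (1 / 2) ^ 2 ^ (N + 4) = (1 / 2) ^ 2 ^ N := by
    have h6 : 2 ^ (N + 4) = 15 * 2 ^ N + 2 ^ N := by ring
    rw [h6, pow_add, ← mul_assoc, ← mul_pow]
    norm_num
  calc 8 * ((4560 + 1000 * N : ℕ) : ℝ) * ((1 / 2) ^ 2 ^ (N + 4) / 2) =
        (4 * (4560 + 1000 * N : ℕ) : ℝ) * (1 / 2) ^ 2 ^ (N + 4) := by ring
    _ ≤ 2 ^ (15 * 2 ^ N) * (1 / 2) ^ 2 ^ (N + 4) := mul_le_mul_of_nonneg_right h4 (by positivity)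
    _ = _ := h5

theorem near_mem (N : ℕ) (hN : 0 < 1 - ((1 : ℝ) / 2) ^ 2 ^ N) :
    (fun _ => (1 - (1 / 2) ^ 2 ^ N) / 8) ∈
      TH (graphOf (gadget (nearC N)).1 (gadget (nearC N)).2) := by
  classical
  obtain ⟨H, _, _, u, hu, hC, hX, -⟩ := exists_u (N + 4) 0 (by omega)
  set δ : ℝ := (1 / 2) ^ 2 ^ (N + 4) / 2 with hδ
  have hδ0 : 0 ≤ δ := by positivity
  have hC' : Holds u (gChain (N + 4)) := by
    unfold hChain at hC
    rw [Holds.append] at hC
    exact hC.1
  set ut : Cst → H := fun c => if c = lastC (N + 4) then - u c.1 else u c.2.1 with hut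
  have hut1 : ∀ c, c = lastC (N + 4) → ut c = - u c.1 := by
    intro c hc; simp only [hut, if_pos hc]
  have hut2 : ∀ c, c ≠ lastC (N + 4) → ut c = u c.2.1 := by
    intro c hc; simp only [hut, if_neg hc]
  have hlast : ⟪u (lastC (N + 4)).1, u (lastC (N + 4)).2.1⟫_ℝ = δ - 1 := by
    change ⟪u (rn (N + 4)), u (fn (N + 4))⟫_ℝ = δ - 1
    linarith
  have hmem : ∀ c ∈ nearC N, c ≠ lastC (N + 4) → c ∈ gChain (N + 4) := by
    intro c hc hne
    unfold nearC at hc
    exact (List.mem_cons.1 hc).resolve_left hne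
  obtain ⟨Y, hY, hY0, hY1, hY2, -⟩ := complete2 (nearC N) (le_four_of_mem_nearC N) u ut δ hu
    (by
      intro c
      by_cases hc : c = lastC (N + 4)
      · rw [hut1 c hc, inner_neg_neg, hu]
      · rw [hut2 c hc, hu])
    (by
      intro c hc'
      by_cases hc : c = lastC (N + 4)
      · rw [hut1 c hc, inner_neg_right, hu, hc]
        simp [lastC]
      · rw [hut2 c hc]
        exact hC' c (hmem c hc' hc))
    (by
      intro c hc'
      by_cases hc : c = lastC (N + 4)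
      · rw [hc, hlast]
        simp only [lastC]
        rw [abs_of_nonneg]
        · push_cast; linarith
        · push_cast; linarith
      · rw [hC' c (hmem c hc' hc), sub_self, abs_zero]
        exact hδ0)
    (by
      intro c _
      by_cases hc : c = lastC (N + 4)
      · rw [hut1 c hc, inner_neg_left, hc, hlast]
        rw [abs_of_nonpos]
        · linarith
        · linarith
      · rw [hut2 c hc, hu, sub_self, abs_zero]
        exact hδ0) hδ0
  refine robust _ Y hY hY0 hY1 δ hY2 hδ0 (1 - (1 / 2) ^ 2 ^ N) hN ?_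
  have h1 := near_num N
  have h2 : (Fintype.card (Fin (gadget (nearC N)).1) : ℝ) = ((4560 + 1000 * N : ℕ) : ℝ) := by
    rw [Fintype.card_fin, card_near]
  rw [h2, sub_sub_cancel]
  have h3 : (0 : ℝ) ≤ ((4560 + 1000 * N : ℕ) : ℝ) * δ := by positivity
  have h4 : (0 : ℝ) < (1 / 2) ^ 2 ^ N := by positivity
  calc 8 * (1 - (1 / 2) ^ 2 ^ N) * (((4560 + 1000 * N : ℕ) : ℝ) * δ) ≤
        8 * 1 * (((4560 + 1000 * N : ℕ) : ℝ) * δ) := by
          apply mul_le_mul_of_nonneg_right _ h3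
          linarith
    _ = 8 * ((4560 + 1000 * N : ℕ) : ℝ) * ((1 / 2) ^ 2 ^ (N + 4) / 2) := by rw [hδ]; ring
    _ ≤ _ := h1

/-- Separating inequalities are large. -/
theorem sep_large {n : ℕ} {G : SimpleGraph (Fin n)} {K : ℕ}
    (h : (fun _ => (1 - (1 / 2) ^ K) / 8) ∈ TH G) (w : Fin n → ℤ) (b : ℤ)
    (h1 : ∀ y ∈ TH G, ∑ i, (w i : ℝ) * y i ≤ b) (h2 : (b : ℝ) < ∑ i, (w i : ℝ) * (1 / 8)) :
    2 ^ K ≤ ∑ i, w i := by
  have h3 := h1 _ h
  rw [← Finset.sum_mul] at h3 h2
  set W : ℤ := ∑ i, w i with hW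
  have hWc : ∑ i, (w i : ℝ) = (W : ℝ) := by rw [hW]; push_cast; rfl
  rw [hWc] at h3 h2
  have h4 : 8 * b < W := by
    have : (8 * b : ℝ) < W := by linarith
    exact_mod_cast this
  have h5 : (8 * b : ℝ) ≤ W - 1 := by
    have : 8 * b ≤ W - 1 := by omega
    exact_mod_cast this
  have h6 : (1 : ℝ) ≤ W * (1 / 2) ^ K := by nlinarith
  have h7 : (2 : ℝ) ^ K ≤ W := by
    have h8 : (W : ℝ) * (1 / 2) ^ K * 2 ^ K = W := by
      rw [mul_assoc, ← mul_pow]; norm_num
    rw [← h8]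
    have h9 : (0 : ℝ) < 2 ^ K := by positivity
    nlinarith
  exact_mod_cast h7

/-! ### The graphs of the second kind -/

/-- The constraints of the graphs with large witnesses. -/
def bigC (N : ℕ) : List Cst := hChain (N + 2) N

lemma card_big (N : ℕ) : (gadget (bigC N)).1 = 5040 + 3500 * N := by
  change (vlist (bigC N)).length = _
  rw [length_vlist]
  unfold bigC
  rw [length_hChain]
  ring

theorem big_mem (N : ℕ) :
    ∃ Y : Matrix (Option (Fin (gadget (bigC N)).1)) (Option (Fin (gadget (bigC N)).1)) ℝ,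
      (∀ a b, ∃ q : ℚ, Y a b = q) ∧ Y.PosSemidef ∧ Y none none = 1 ∧
      (∀ i, Y none (some i) = 1 / 8 ∧ Y (some i) (some i) = 1 / 8) ∧
      ∀ i j, (graphOf (gadget (bigC N)).1 (gadget (bigC N)).2).Adj i j →
        Y (some i) (some j) = 0 := by
  obtain ⟨H, _, _, u, hu, hC, -, hr⟩ := exists_u (N + 2) N le_rfl
  obtain ⟨Y, hY, hY0, hY1, hY2, hY3⟩ := complete2 (bigC N) (le_four_of_mem_hChain _ _) u
    (fun c => u c.2.1) 0 hu (fun c => hu _) hC
    (fun c hc => by rw [hC c hc, sub_self, abs_zero])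
    (fun c _ => by rw [hu, sub_self, abs_zero]) le_rfl
  refine ⟨Y, fun a b => mem_QQ (hY3 hr (fun p c => hr p _) (fun c c' => hr _ _) a b), hY, hY0,
    hY1, fun i j hij => ?_⟩
  exact abs_eq_zero.1 (le_antisymm (hY2 i j hij) (abs_nonneg _))

theorem big_large (N : ℕ)
    (Y : Matrix (Option (Fin (gadget (bigC N)).1)) (Option (Fin (gadget (bigC N)).1)) ℝ)
    (hY : Y.PosSemidef) (hY0 : Y none none = 1)
    (hY1 : ∀ i, Y none (some i) = 1 / 8 ∧ Y (some i) (some i) = 1 / 8)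
    (hY2 : ∀ i j, (graphOf (gadget (bigC N)).1 (gadget (bigC N)).2).Adj i j →
        Y (some i) (some j) = 0) (D : ℕ) (hD : 0 < D)
    (hDY : ∀ a b, ∃ k : ℤ, (D : ℝ) * Y a b = k) : 2 ^ 2 ^ N ≤ D := by
  obtain ⟨H, _, _, u, hu, hC, hocc⟩ := sound2 (bigC N) (le_four_of_mem_hChain _ _) Y hY hY0 hY1 hY2
  have hC' : Holds u (hChain (N + 2) N) := hC
  have hg : Holds u (gChain (N + 2)) := by
    unfold hChain at hC'
    rw [Holds.append] at hC'
    exact hC'.1
  have hs := chain_pos hu hg (N + 2) le_rfl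
  have hsm := chain_small hu hC'
  -- the two names occur
  have hmem : ∀ c ∈ gStep (N + 1), c ∈ bigC N := by
    intro c hc
    unfold bigC hChain gChain
    exact List.mem_append_left _ (List.mem_append_right _
      (List.mem_flatMap.2 ⟨N + 1, List.mem_range.2 (by omega), hc⟩))
  have o1 : Occ (bigC N) (rn (N + 2)) := by
    refine ⟨(Sr (N + 1), rn (N + 1 + 1), 3), hmem _ ?_, Or.inr rfl⟩
    unfold gStep relC
    simp
  have o2 : Occ (bigC N) (fn (N + 2)) := by
    refine ⟨(Sf (N + 1), fn (N + 1 + 1), 3), hmem _ ?_, Or.inr rfl⟩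
    unfold gStep relC
    simp
  obtain ⟨k, hk⟩ := hocc _ _ o1 o2 D hDY
  set s := 1 + ⟪u (rn (N + 2)), u (fn (N + 2))⟫_ℝ with hs'
  have hD' : (0 : ℝ) < D := by exact_mod_cast hD
  have hk0 : (0 : ℝ) < k := by rw [← hk]; positivity
  have hk1 : (1 : ℝ) ≤ k := by
    have h1 : 0 < k := by exact_mod_cast hk0
    exact_mod_cast h1
  have h1 : (4 : ℝ) ^ 2 ^ (N + 1) ≤ 8 * D := by
    have h2 : (4 : ℝ) ^ 2 ^ (N + 1) * 1 ≤ 4 ^ 2 ^ (N + 1) * (D * s) := by
      apply mul_le_mul_of_nonneg_left _ (by positivity)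
      rw [hk]; exact hk1
    have h3 : (4 : ℝ) ^ 2 ^ (N + 1) * (D * s) = D * (s * 4 ^ 2 ^ (N + 1)) := by ring
    have h4 : D * (s * 4 ^ 2 ^ (N + 1)) ≤ D * 8 := mul_le_mul_of_nonneg_left hsm hD'.le
    linarith
  have h2 : 4 ^ 2 ^ (N + 1) ≤ 8 * D := by exact_mod_cast h1
  have h3 : (4 : ℕ) ^ 2 ^ (N + 1) = 2 ^ 2 ^ N * (2 ^ 2 ^ N) ^ 3 := by
    have : (4 : ℕ) = 2 ^ 2 := by norm_num
    rw [this, ← pow_mul, ← pow_mul, ← pow_add]
    congr 1
    ring
  have h4 : 8 ≤ (2 ^ 2 ^ N) ^ 3 := by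
    have h5 : 2 ≤ 2 ^ 2 ^ N := by
      calc 2 = 2 ^ 1 := rfl
        _ ≤ 2 ^ 2 ^ N := Nat.pow_le_pow_right (by norm_num) Nat.one_le_two_pow
    calc 8 = 2 ^ 3 := rfl
      _ ≤ _ := Nat.pow_le_pow_left h5 3
  rw [h3] at h2
  have h5 : 2 ^ 2 ^ N * 8 ≤ D * 8 := by
    calc 2 ^ 2 ^ N * 8 ≤ 2 ^ 2 ^ N * (2 ^ 2 ^ N) ^ 3 := Nat.mul_le_mul_left _ h4
      _ ≤ 8 * D := h2
      _ = D * 8 := Nat.mul_comm _ _
  exact Nat.le_of_mul_le_mul_right h5 (by norm_num)

end Pool.Agent.Helper95.ThetaGap
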