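import Mathlib
import Pool.Agent.Helper89.Comp

/-!
# The output of a polynomial-time machine is not long
-/

open Turing

namespace Pool.Agent.Helper95.ThetaGap

open Pool.Agent.Helper89 Pool.Agent.Helper89.Comp

theorem polyTime_len {α β : Type} {ea : α → List Bool} {eb : β → List Bool} {f : α → β}
    (h : TM2ComputableInPolyTime ea eb f) :
    ∃ P : Polynomial ℕ, ∀ x, (eb (f x)).length ≤ P.eval (ea x).length := by
  obtain ⟨⟨tm₁, ia₁, io₁⟩, time₁, out₁⟩ := h
  have := tm₁.kFin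
  have := tm₁.ΛFin
  have := tm₁.σFin
  let c : ℕ := ∑ l : tm₁.Λ, pushes (tm₁.m l)
  have hc : ∀ l, pushes (tm₁.m l) ≤ c := fun l =>
    Finset.single_le_sum (f := fun l => pushes (tm₁.m l)) (fun _ _ => Nat.zero_le _)
      (Finset.mem_univ l)
  refine ⟨Polynomial.X + Polynomial.C c * time₁, fun a => ?_⟩
  obtain ⟨n₁, hn₁, s₁⟩ := steps_of_outputs (out₁ a)
  have hlen := steps_len hc s₁ tm₁.k₁
  have h1 : (Cmd.single tm₁.k₁ (List.map io₁.invFun (eb (f a))) tm₁.k₁).length =
      (eb (f a)).length := by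
    unfold Cmd.single; simp
  have h2 : (Cmd.single tm₁.k₀ (List.map ia₁.invFun (ea a)) tm₁.k₁).length ≤
      (ea a).length := by
    unfold Cmd.single
    by_cases h : tm₁.k₁ = tm₁.k₀
    · rw [h]; simp
    · rw [Function.update_of_ne h]; simp
  simp only at hlen
  rw [h1] at hlen
  have h3 : n₁ * c ≤ c * time₁.eval (ea a).length := by
    rw [Nat.mul_comm]; exact Nat.mul_le_mul_left _ hn₁
  simp only [Polynomial.eval_add, Polynomial.eval_mul, Polynomial.eval_X, Polynomial.eval_C]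
  omega

/-- A polynomial is smaller than `2 ^ N` for some `N`. -/
theorem exists_lt_pow (P : Polynomial ℕ) : ∃ N, P.eval N < 2 ^ N := by
  set Q : Polynomial ℝ := (P.comp (2 * Polynomial.X)).map (Nat.castRingHom ℝ) with hQ
  have h := Polynomial.tendsto_div_exp_atTop Q
  have h1 : ∀ᶠ x : ℝ in Filter.atTop, Q.eval x / Real.exp x < 1 :=
    h.eventually (Iio_mem_nhds zero_lt_one)
  obtain ⟨a, ha⟩ := Filter.eventually_atTop.1 h1
  obtain ⟨m, hm⟩ := exists_nat_ge a
  have h2 := ha m hm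
  rw [div_lt_one (Real.exp_pos _)] at h2
  have h3 : Q.eval (m : ℝ) = ((P.eval (2 * m) : ℕ) : ℝ) := by
    rw [hQ, Polynomial.eval_natCast_map]
    simp [Polynomial.eval_comp]
  refine ⟨2 * m, ?_⟩
  have h4 : Real.exp m ≤ 2 ^ (2 * m) := by
    have h5 : Real.exp 1 ≤ 4 := by
      have := Real.exp_one_lt_d9
      linarith
    calc Real.exp m = Real.exp 1 ^ m := by rw [← Real.exp_nat_mul, mul_one]
      _ ≤ 4 ^ m := pow_le_pow_left₀ (Real.exp_pos _).le h5 m
      _ = 2 ^ (2 * m) := by rw [pow_mul]; norm_num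
  have h5 : ((P.eval (2 * m) : ℕ) : ℝ) < ((2 ^ (2 * m) : ℕ) : ℝ) := by
    rw [← h3]
    push_cast
    linarith
  exact_mod_cast h5

end Pool.Agent.Helper95.ThetaGap
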